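import Mathlib

/-! Sets with gaps tending to infinity are interpolation sets for distal systems:
a limit periodic cocycle over an odometer. -/

set_option autoImplicit false

namespace Pool.Agent.H5Z.Distal

open Finset

/-- One block: a small correction which repairs all gap sums from index `K` on. -/
lemma block (n : ℕ → ℕ) (hn : StrictMono n) (c : ℕ → ℝ) (B : ℕ → ℝ) (K L : ℕ) (hL : 0 < L)
    (hgap : ∀ k, K ≤ k → L ≤ n (k + 1) - n k) :
    ∃ g : ℕ → ℝ, (∀ m, |g m| ≤ 1 / (L : ℝ)) ∧ (∀ m, m < n K → g m = 0) ∧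
      ∀ k, K ≤ k → ∃ z : ℤ, ∑ m ∈ Ico (n k) (n (k + 1)), (B m + g m) = c (k + 1) - c k + z := by
  classical
  let d : ℕ → ℝ := fun k => Int.fract (c (k + 1) - c k - ∑ m ∈ Ico (n k) (n (k + 1)), B m)
  let g : ℕ → ℝ := fun m =>
    if h : ∃ k, K ≤ k ∧ n k ≤ m ∧ m < n (k + 1) then
      d h.choose / ((n (h.choose + 1) - n h.choose : ℕ) : ℝ) else 0
  have huniq : ∀ k k' m, n k ≤ m → m < n (k + 1) → n k' ≤ m → m < n (k' + 1) → k = k' := by
    intro k k' m h1 h2 h3 h4
    have a1 : k' < k + 1 := hn.lt_iff_lt.mp (lt_of_le_of_lt h3 h2)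
    have a2 : k < k' + 1 := hn.lt_iff_lt.mp (lt_of_le_of_lt h1 h4)
    omega
  refine ⟨g, ?_, ?_, ?_⟩
  · intro m
    have hLpos : (0 : ℝ) < L := by exact_mod_cast hL
    simp only [g]
    split_ifs with h
    · have hs := h.choose_spec
      have h1 := hgap _ hs.1
      have h2 : (L : ℝ) ≤ ((n (h.choose + 1) - n h.choose : ℕ) : ℝ) := by exact_mod_cast h1
      have h3 : 0 ≤ d h.choose := Int.fract_nonneg _
      have h4 : d h.choose ≤ 1 := (Int.fract_lt_one _).le
      rw [abs_of_nonneg (div_nonneg h3 (Nat.cast_nonneg _))]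
      exact div_le_div₀ zero_le_one h4 hLpos h2
    · simp
  · intro m hm
    simp only [g]
    rw [dif_neg]
    rintro ⟨k, h1, h2, -⟩
    have := hn.monotone h1
    omega
  · intro k hk
    have hg : ∀ m ∈ Ico (n k) (n (k + 1)), g m = d k / ((n (k + 1) - n k : ℕ) : ℝ) := by
      intro m hm
      rw [mem_Ico] at hm
      have h : ∃ k, K ≤ k ∧ n k ≤ m ∧ m < n (k + 1) := ⟨k, hk, hm.1, hm.2⟩
      simp only [g]
      rw [dif_pos h]
      have hs := h.choose_spec
      have : h.choose = k := huniq _ _ m hs.2.1 hs.2.2 hm.1 hm.2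
      rw [this]
    have hpos : (0 : ℝ) < ((n (k + 1) - n k : ℕ) : ℝ) := by
      have := hgap k hk
      have : 0 < n (k + 1) - n k := by omega
      exact_mod_cast this
    rw [sum_add_distrib, sum_congr rfl hg, sum_const, Nat.card_Ico, nsmul_eq_mul,
      mul_div_cancel₀ _ hpos.ne']
    refine ⟨-⌊c (k + 1) - c k - ∑ m ∈ Ico (n k) (n (k + 1)), B m⌋, ?_⟩
    simp only [d, Int.fract]
    push_cast
    ring

/-- A uniformly convergent series of periodic functions with prescribed gap sums modulo one. -/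
lemma series (n : ℕ → ℕ) (hn : StrictMono n)
    (hgap : Filter.Tendsto (fun k : ℕ => n (k + 1) - n k) Filter.atTop Filter.atTop)
    (c : ℕ → ℝ) :
    ∃ (q : ℕ → ℕ) (g : ℕ → ℕ → ℝ), (∀ j, 0 < q j) ∧ (∀ j m, |g j m| ≤ (1 / 2 : ℝ) ^ j) ∧
      ∀ k, ∃ z : ℤ, ∑ m ∈ Ico (n k) (n (k + 1)), (∑' j, g j (m % q j)) = c (k + 1) - c k + z := by
  classical
  have h0 : ∀ j : ℕ, ∀ᶠ K in Filter.atTop, ∀ k, K ≤ k → 2 ^ j ≤ n (k + 1) - n k := by
    intro j
    have := (Filter.tendsto_atTop.mp hgap) (2 ^ j)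
    obtain ⟨K, hK⟩ := Filter.eventually_atTop.mp this
    exact Filter.eventually_atTop.mpr ⟨K, fun K' hK' k hk => hK k (hK'.trans hk)⟩
  obtain ⟨ψ, hψ, hψ'⟩ := Filter.extraction_forall_of_eventually h0
  let K : ℕ → ℕ := fun j => if j = 0 then 0 else ψ j
  have hK : StrictMono K := by
    apply strictMono_nat_of_lt_succ
    intro j
    by_cases hj : j = 0
    · subst hj
      have := hψ (show 0 < 1 by norm_num)
      simp only [K]; simp; omega
    · simp only [K, if_neg hj, if_neg (Nat.succ_ne_zero j)]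
      exact hψ (Nat.lt_succ_self j)
  have hK0 : K 0 = 0 := by simp [K]
  have hKgap : ∀ j k, K j ≤ k → 2 ^ j ≤ n (k + 1) - n k := by
    intro j k hk
    by_cases hj : j = 0
    · subst hj
      have := hn (Nat.lt_succ_self k)
      simp only [Nat.succ_eq_add_one] at this
      simp; omega
    · simp only [K, if_neg hj] at hk
      exact hψ' j k hk
  have hb := fun (B : ℕ → ℝ) (j : ℕ) =>
    block n hn c B (K j) (2 ^ j) (by positivity) (hKgap j)
  choose G hG1 hG2 hG3 using hb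
  let q : ℕ → ℕ := fun j => n (K (j + 1))
  let B : ℕ → ℕ → ℝ := fun j =>
    Nat.rec (motive := fun _ => ℕ → ℝ) (fun _ => 0) (fun j B m => B m + G B j (m % q j)) j
  let g : ℕ → ℕ → ℝ := fun j => G (B j) j
  have hB : ∀ j m, B j m = ∑ i ∈ range j, g i (m % q i) := by
    intro j
    induction j with
    | zero => intro m; simp [B]
    | succ j ih =>
      intro m
      rw [sum_range_succ, ← ih m]
  refine ⟨q, g, ?_, ?_, ?_⟩
  · intro j
    have h1 : 0 < K (j + 1) := by
      have := hK (Nat.succ_pos j)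
      rwa [hK0] at this
    have := hn h1
    simp only [q]; omega
  · intro j m
    have := hG1 (B j) j m
    simpa [g, one_div, inv_pow] using this
  · intro k
    have hex : ∃ j, k < K (j + 1) := ⟨k, lt_of_lt_of_le (Nat.lt_succ_self k) (hK.id_le (k + 1))⟩
    let j := Nat.find hex
    have hj1 : k < K (j + 1) := Nat.find_spec hex
    have hj2 : K j ≤ k := by
      by_cases hj : j = 0
      · rw [hj, hK0]; exact Nat.zero_le _
      · obtain ⟨i, hi⟩ := Nat.exists_eq_succ_of_ne_zero hj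
        have := Nat.find_min hex (show i < Nat.find hex by omega)
        rw [hi]; simp only [Nat.succ_eq_add_one]; omega
    obtain ⟨z, hz⟩ := hG3 (B j) j k hj2
    refine ⟨z, ?_⟩
    rw [← hz]
    apply sum_congr rfl
    intro m hm
    rw [mem_Ico] at hm
    have hmq : m < q j := lt_of_lt_of_le hm.2 (hn.monotone hj1)
    rw [tsum_eq_sum (s := range (j + 1))]
    · rw [sum_range_succ, ← hB, Nat.mod_eq_of_lt hmq]
    · intro i hi
      rw [mem_range, not_lt] at hi
      have h1 : q j ≤ n (K i) := hn.monotone (hK.monotone hi)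
      have h2 : q j ≤ q i := hn.monotone (hK.monotone (by omega))
      rw [Nat.mod_eq_of_lt (lt_of_lt_of_le hmq h2)]
      exact hG2 (B i) i m (lt_of_lt_of_le hmq h1)

/-- The skew product over the translation by one. -/
def skew {Z : Type} [TopologicalSpace Z] [Ring Z] [IsTopologicalRing Z]
    (ψ : Z → UnitAddCircle) (hψ : Continuous ψ) :
    (Z × UnitAddCircle) ≃ₜ (Z × UnitAddCircle) where
  toFun x := (x.1 + 1, x.2 + ψ x.1)
  invFun x := (x.1 - 1, x.2 - ψ (x.1 - 1))
  left_inv x := by simp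
  right_inv x := by simp
  continuous_toFun := by fun_prop
  continuous_invFun := by fun_prop

lemma skew_iter {Z : Type} [TopologicalSpace Z] [Ring Z] [IsTopologicalRing Z]
    (ψ : Z → UnitAddCircle) (hψ : Continuous ψ) (t : UnitAddCircle) (m : ℕ) :
    (⇑(skew ψ hψ))^[m] (0, t) = ((m : Z), t + ∑ i ∈ range m, ψ (i : Z)) := by
  induction m with
  | zero => simp
  | succ m ih =>
    rw [Function.iterate_succ_apply', ih, sum_range_succ]
    show ((m : Z) + 1, t + ∑ i ∈ range m, ψ (i : Z) + ψ (m : Z)) = _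
    rw [add_assoc]
    push_cast
    rfl

/-- The closed invariant set of pairs which contains the orbit of a given pair. -/
def pairs {Z : Type} [Ring Z] (x y : Z × UnitAddCircle) :
    Set ((Z × UnitAddCircle) × (Z × UnitAddCircle)) :=
  {p | p.1.1 - p.2.1 = x.1 - y.1 ∧ (x.1 = y.1 → p.1.2 - p.2.2 = x.2 - y.2)}

lemma pairs_closed {Z : Type} [TopologicalSpace Z] [T2Space Z] [Ring Z] [IsTopologicalRing Z]
    (x y : Z × UnitAddCircle) : IsClosed (pairs x y) := by
  apply IsClosed.inter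
  · exact isClosed_eq (by fun_prop) continuous_const
  · by_cases h : x.1 = y.1
    · simp only [h, true_imp_iff]
      exact isClosed_eq (f := fun p : (Z × UnitAddCircle) × (Z × UnitAddCircle) => p.1.2 - p.2.2)
        (by fun_prop) continuous_const
    · simp only [h, false_imp_iff]
      exact isClosed_univ

lemma pairs_ne {Z : Type} [Ring Z] (x y : Z × UnitAddCircle) (hxy : x ≠ y)
    (p : (Z × UnitAddCircle) × (Z × UnitAddCircle)) (hp : p ∈ pairs x y) : p.1 ≠ p.2 := by
  intro h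
  obtain ⟨h1, h2⟩ := hp
  rw [h, sub_self] at h1 h2
  have a1 : x.1 = y.1 := sub_eq_zero.mp h1.symm
  have a2 : x.2 = y.2 := sub_eq_zero.mp (h2 a1).symm
  exact hxy (Prod.ext a1 a2)

lemma pairs_fwd {Z : Type} [TopologicalSpace Z] [Ring Z] [IsTopologicalRing Z]
    (ψ : Z → UnitAddCircle) (hψ : Continuous ψ) (x y : Z × UnitAddCircle) (m : ℕ) :
    ((⇑(skew ψ hψ))^[m] x, (⇑(skew ψ hψ))^[m] y) ∈ pairs x y := by
  induction m with
  | zero => exact ⟨rfl, fun _ => rfl⟩
  | succ m ih =>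
    rw [Function.iterate_succ_apply', Function.iterate_succ_apply']
    generalize (⇑(skew ψ hψ))^[m] x = u at ih ⊢
    generalize (⇑(skew ψ hψ))^[m] y = v at ih ⊢
    obtain ⟨h1, h2⟩ := ih
    refine ⟨?_, fun h => ?_⟩
    · show (u.1 + 1) - (v.1 + 1) = _
      rw [← h1]; simp
    · show (u.2 + ψ u.1) - (v.2 + ψ v.1) = _
      have : u.1 = v.1 := by
        have h3 : u.1 - v.1 = x.1 - y.1 := h1
        rw [h, sub_self] at h3
        exact sub_eq_zero.mp h3
      rw [← h2 h, this]; simp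

lemma pairs_bwd {Z : Type} [TopologicalSpace Z] [Ring Z] [IsTopologicalRing Z]
    (ψ : Z → UnitAddCircle) (hψ : Continuous ψ) (x y : Z × UnitAddCircle) (m : ℕ) :
    ((⇑(skew ψ hψ).symm)^[m] x, (⇑(skew ψ hψ).symm)^[m] y) ∈ pairs x y := by
  induction m with
  | zero => exact ⟨rfl, fun _ => rfl⟩
  | succ m ih =>
    rw [Function.iterate_succ_apply', Function.iterate_succ_apply']
    generalize (⇑(skew ψ hψ).symm)^[m] x = u at ih ⊢
    generalize (⇑(skew ψ hψ).symm)^[m] y = v at ih ⊢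
    obtain ⟨h1, h2⟩ := ih
    refine ⟨?_, fun h => ?_⟩
    · show (u.1 - 1) - (v.1 - 1) = _
      rw [← h1]; simp
    · show (u.2 - ψ (u.1 - 1)) - (v.2 - ψ (v.1 - 1)) = _
      have : u.1 = v.1 := by
        have h3 : u.1 - v.1 = x.1 - y.1 := h1
        rw [h, sub_self] at h3
        exact sub_eq_zero.mp h3
      rw [← h2 h, this]; simp

lemma sep_of_closed {X : Type} [MetricSpace X] [CompactSpace X] (D : Set (X × X))
    (hD : IsClosed D) (hne : ∀ p ∈ D, p.1 ≠ p.2) :
    ∃ ε : ℝ, 0 < ε ∧ ∀ p ∈ D, ε ≤ dist p.1 p.2 := by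
  rcases D.eq_empty_or_nonempty with h | h
  · exact ⟨1, one_pos, by simp [h]⟩
  · obtain ⟨p, hp, hmin⟩ := hD.isCompact.exists_isMinOn h
      (f := fun p : X × X => dist p.1 p.2) (by fun_prop)
    exact ⟨dist p.1 p.2, dist_pos.mpr (hne p hp), fun r hr => hmin hr⟩

theorem main (n : ℕ → ℕ) (hn : StrictMono n)
    (hgap : Filter.Tendsto (fun k : ℕ => n (k + 1) - n k) Filter.atTop Filter.atTop)
    (φ : ℕ → ℝ) (hφ : ∃ C : ℝ, ∀ k : ℕ, |φ k| ≤ C) :
    ∃ (X : Type) (_ : MetricSpace X) (_ : CompactSpace X) (T : X ≃ₜ X),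
      (∀ x y : X, x ≠ y → ∃ ε : ℝ, 0 < ε ∧ ∀ m : ℕ,
          ε ≤ dist ((⇑T)^[m] x) ((⇑T)^[m] y) ∧
          ε ≤ dist ((⇑T.symm)^[m] x) ((⇑T.symm)^[m] y)) ∧
      ∃ (x₀ : X) (f : X → ℝ), Continuous f ∧
        ∀ k : ℕ, f ((⇑T)^[n k] x₀) = φ k := by
  obtain ⟨C, hC⟩ := hφ
  have hC0 : 0 ≤ C := (abs_nonneg _).trans (hC 0)
  let c : ℕ → ℝ := fun k => φ k / (4 * (C + 1)) + 1 / 4
  obtain ⟨q, g, hq, hg, hsum⟩ := series n hn hgap c
  haveI : ∀ j, NeZero (q j) := fun j => ⟨(hq j).ne'⟩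
  let Z : Type := ∀ j : ℕ, ZMod (q j)
  let a : Z → ℝ := fun z => ∑' j, g j (z j).val
  have ha : Continuous a := by
    apply continuous_tsum (u := fun j => (1 / 2 : ℝ) ^ j)
    · intro j
      exact (continuous_of_discreteTopology (f := fun r : ZMod (q j) => g j r.val)).comp
        (continuous_apply j)
    · exact summable_geometric_two
    · intro j z
      exact hg j _
  let ψ : Z → UnitAddCircle := fun z => ((a z : ℝ) : UnitAddCircle)
  have hψ : Continuous ψ := (AddCircle.continuous_mk' 1).comp ha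
  have hacast : ∀ m : ℕ, a (m : Z) = ∑' j, g j (m % q j) := by
    intro m
    simp only [a]
    congr 1
    funext j
    rw [Pi.natCast_apply, ZMod.val_natCast]
  letI M : MetricSpace (Z × UnitAddCircle) := TopologicalSpace.metrizableSpaceMetric _
  refine ⟨Z × UnitAddCircle, M, inferInstance, skew ψ hψ, ?_, ?_⟩
  · intro x y hxy
    obtain ⟨ε, hε, h⟩ := sep_of_closed (pairs x y) (pairs_closed x y) (pairs_ne x y hxy)
    exact ⟨ε, hε, fun m => ⟨h _ (pairs_fwd ψ hψ x y m), h _ (pairs_bwd ψ hψ x y m)⟩⟩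
  · let t0 : ℝ := c 0 - ∑ i ∈ range (n 0), a (i : Z)
    refine ⟨(0, (t0 : UnitAddCircle)), fun x => (‖x.2‖ - 1 / 4) * (4 * (C + 1)), by fun_prop, ?_⟩
    have key : ∀ k, ∃ z : ℤ, t0 + ∑ i ∈ range (n k), a (i : Z) = c k + z := by
      intro k
      induction k with
      | zero => exact ⟨0, by simp [t0]⟩
      | succ k ih =>
        obtain ⟨z, hz⟩ := ih
        obtain ⟨w, hw⟩ := hsum k
        refine ⟨z + w, ?_⟩
        rw [← sum_range_add_sum_Ico _ (hn.monotone (Nat.le_succ k)), ← add_assoc, hz,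
          sum_congr rfl (fun m _ => hacast m), hw]
        push_cast
        ring
    intro k
    obtain ⟨z, hz⟩ := key k
    rw [skew_iter]
    have h1 : (t0 : UnitAddCircle) + ∑ i ∈ range (n k), ψ (i : Z) = ((c k : ℝ) : UnitAddCircle) := by
      have h2 : ∑ i ∈ range (n k), ψ (i : Z)
          = ((∑ i ∈ range (n k), a (i : Z) : ℝ) : UnitAddCircle) := by
        simp only [ψ]
        exact (QuotientAddGroup.mk_sum _ _).symm
      rw [h2, ← AddCircle.coe_add, hz, AddCircle.coe_add]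
      have : ((z : ℝ) : UnitAddCircle) = 0 := by
        rw [AddCircle.coe_eq_zero_iff]
        exact ⟨z, by simp⟩
      rw [this, add_zero]
    show (‖(t0 : UnitAddCircle) + ∑ i ∈ range (n k), ψ (i : Z)‖ - 1 / 4) * (4 * (C + 1)) = φ k
    have hb := abs_le.mp (hC k)
    have hpos : 0 < 4 * (C + 1) := by linarith
    have h3 : |φ k / (4 * (C + 1))| ≤ 1 / 4 := by
      rw [abs_div, abs_of_pos hpos, div_le_iff₀ hpos]
      linarith [hC k]
    have h4 := abs_le.mp h3
    have h5 : 0 ≤ c k := by simp only [c]; linarith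
    have h6 : c k ≤ 1 / 2 := by simp only [c]; linarith
    have h7 : ‖((c k : ℝ) : UnitAddCircle)‖ = |c k| := by
      rw [AddCircle.norm_coe_eq_abs_iff (1 : ℝ) one_ne_zero, abs_of_nonneg h5]
      simpa using h6
    rw [h1, h7, abs_of_nonneg h5]
    simp only [c]
    field_simp
    ring

end Pool.Agent.H5Z.Distal
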