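import Mathlib

/-! Combinatorial part: hierarchical patterns which are interpolated by polynomials of degree
`j + 1` modulo one and have a Ramsey property for `j`-dimensional cubes. -/

set_option autoImplicit false

namespace Pool.Agent.H5Z.Nil

open Finset

/-- `x` is within `τ` of an integer. -/
def Near (τ x : ℝ) : Prop := ∃ z : ℤ, |x - z| ≤ τ

/-- Every real function on `F` is, modulo one and up to `τ`, a polynomial of degree at most `j`. -/
def Itp (j : ℕ) (τ : ℝ) (F : Set ℤ) : Prop :=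
  ∀ c : ℤ → ℝ, ∃ β : ℕ → ℝ, ∀ f ∈ F, Near τ (∑ l ∈ range (j + 1), β l * (f : ℝ) ^ l - c f)

/-- Every real function on `F` is, modulo one and up to `τ`, a monomial of degree `j`. -/
def Mono (j : ℕ) (τ : ℝ) (F : Set ℤ) : Prop :=
  ∀ c : ℤ → ℝ, ∃ α : ℝ, ∀ f ∈ F, Near τ (α * (f : ℝ) ^ j - c f)

lemma Mono.itp {j : ℕ} {τ : ℝ} {F : Set ℤ} (h : Mono j τ F) : Itp j τ F := by
  intro c
  obtain ⟨α, hα⟩ := h c
  refine ⟨fun l => if l = j then α else 0, fun f hf => ?_⟩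
  have : ∑ l ∈ range (j + 1), (if l = j then α else 0) * (f : ℝ) ^ l = α * (f : ℝ) ^ j := by
    rw [sum_eq_single j]
    · simp
    · intro b _ hb; simp [hb]
    · intro h; simp at h
  rw [this]
  exact hα f hf

lemma Mono.subset {j : ℕ} {τ : ℝ} {F F' : Set ℤ} (h : Mono j τ F) (hF : F' ⊆ F) :
    Mono j τ F' := fun c => (h c).imp fun _ hα f hf => hα f (hF hf)

lemma Near.mono {τ τ' x : ℝ} (h : Near τ x) (hτ : τ ≤ τ') : Near τ' x :=
  h.imp fun _ hz => hz.trans hτ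

lemma Itp.mono {j : ℕ} {τ τ' : ℝ} {F : Set ℤ} (h : Itp j τ F) (hτ : τ ≤ τ') : Itp j τ' F :=
  fun c => (h c).imp fun _ hβ f hf => (hβ f hf).mono hτ

lemma Itp.scale {j : ℕ} {τ : ℝ} {F : Set ℤ} (h : Itp j τ F) (q : ℤ) (hq : q ≠ 0) :
    Itp j τ ((fun f => q * f) '' F) := by
  intro c
  obtain ⟨β, hβ⟩ := h (fun f => c (q * f))
  refine ⟨fun l => β l / (q : ℝ) ^ l, ?_⟩
  rintro _ ⟨f, hf, rfl⟩
  have hq' : (q : ℝ) ≠ 0 := by exact_mod_cast hq
  have : ∑ l ∈ range (j + 1), β l / (q : ℝ) ^ l * ((q * f : ℤ) : ℝ) ^ l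
      = ∑ l ∈ range (j + 1), β l * (f : ℝ) ^ l := by
    apply sum_congr rfl
    intro l _
    push_cast
    rw [mul_pow]
    field_simp
  simp only
  rw [this]
  exact hβ f hf

/-- Approximation at several scales at once. -/
lemma scales (w : ℕ → ℝ) (hw : ∀ s, 0 < w s) (β : ℕ → ℝ) (α₀ : ℝ) (m : ℕ) :
    ∃ α : ℝ, α₀ ≤ α ∧ α ≤ α₀ + ∑ s ∈ range m, 1 / w s ∧
      ∀ s, s < m → ∃ z : ℤ, |w s * α - β s - z| ≤ w s * ∑ t ∈ Ico (s + 1) m, 1 / w t := by
  induction m with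
  | zero => exact ⟨α₀, le_rfl, by simp, fun s hs => absurd hs (Nat.not_lt_zero s)⟩
  | succ m ih =>
    obtain ⟨α, h1, h2, h3⟩ := ih
    set ε : ℝ := Int.fract (β m - w m * α) / w m with hε
    have hε0 : 0 ≤ ε := div_nonneg (Int.fract_nonneg _) (hw m).le
    have hε1 : ε ≤ 1 / w m := div_le_div_of_nonneg_right (Int.fract_lt_one _).le (hw m).le
    refine ⟨α + ε, by linarith, by rw [sum_range_succ]; linarith, ?_⟩
    intro s hs
    rcases Nat.lt_succ_iff_lt_or_eq.mp hs with hs' | hs'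
    · obtain ⟨z, hz⟩ := h3 s hs'
      refine ⟨z, ?_⟩
      rw [sum_Ico_succ_top (by omega), mul_add]
      have e1 : w s * α + w s * ε - β s - z = (w s * α - β s - z) + w s * ε := by ring
      rw [e1, mul_add]
      refine (abs_add_le _ _).trans (add_le_add hz ?_)
      rw [abs_of_nonneg (mul_nonneg (hw s).le hε0)]
      exact mul_le_mul_of_nonneg_left hε1 (hw s).le
    · subst hs'
      refine ⟨-⌊β s - w s * α⌋, ?_⟩
      have e1 : w s * ε = Int.fract (β s - w s * α) := by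
        rw [hε]; field_simp [(hw s).ne']
      have e2 : w s * (α + ε) - β s - ((-⌊β s - w s * α⌋ : ℤ) : ℝ) = 0 := by
        rw [mul_add, e1, Int.fract]; push_cast; ring
      rw [e2]; simp

/-- For large `R` the numbers `binom (j+1) l * R^(j+1-l) * α` can be prescribed modulo one. -/
lemma scales_pow (j : ℕ) (δ η : ℝ) (hδ : 0 < δ) (hη : 0 < η) :
    ∃ R₀ : ℝ, ∀ R : ℝ, R₀ ≤ R → ∀ (α₀ : ℝ) (β : ℕ → ℝ), ∃ α : ℝ, α₀ ≤ α ∧ α ≤ α₀ + δ ∧
      ∀ l, l ≤ j → ∃ z : ℤ, |((j + 1).choose l : ℝ) * R ^ (j + 1 - l) * α - β l - z| ≤ η := by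
  refine ⟨max 1 (max ((j + 1) / δ) (2 ^ (j + 1) * (j + 1) / η)), fun R hR α₀ β => ?_⟩
  have hR1 : 1 ≤ R := (le_max_left _ _).trans hR
  have hR2 : (j + 1) / δ ≤ R := ((le_max_left _ _).trans (le_max_right _ _)).trans hR
  have hR3 : 2 ^ (j + 1) * (j + 1) / η ≤ R := ((le_max_right _ _).trans (le_max_right _ _)).trans hR
  have hR0 : 0 < R := by linarith
  let w : ℕ → ℝ := fun s => ((j + 1).choose (j - s) : ℝ) * R ^ (s + 1)
  have hc : ∀ s, (1 : ℝ) ≤ ((j + 1).choose (j - s) : ℝ) := by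
    intro s
    have : 0 < (j + 1).choose (j - s) := Nat.choose_pos (by omega)
    exact_mod_cast this
  have hc2 : ∀ s, ((j + 1).choose (j - s) : ℝ) ≤ 2 ^ (j + 1) := by
    intro s
    have : (j + 1).choose (j - s) ≤ 2 ^ (j + 1) := Nat.choose_le_two_pow _ _
    exact_mod_cast this
  have hw : ∀ s, 0 < w s := fun s => mul_pos (by linarith [hc s]) (pow_pos hR0 _)
  have hw1 : ∀ s t, s ≤ t → 1 / w t ≤ 1 / R ^ (s + 1) := by
    intro s t hst
    apply one_div_le_one_div_of_le (pow_pos hR0 _)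
    calc R ^ (s + 1) ≤ R ^ (t + 1) := pow_le_pow_right₀ hR1 (by omega)
      _ = 1 * R ^ (t + 1) := (one_mul _).symm
      _ ≤ w t := mul_le_mul_of_nonneg_right (hc t) (pow_pos hR0 _).le
  obtain ⟨α, h1, h2, h3⟩ := scales w hw (fun s => β (j - s)) α₀ (j + 1)
  refine ⟨α, h1, h2.trans ?_, ?_⟩
  · have : ∑ s ∈ range (j + 1), 1 / w s ≤ ∑ s ∈ range (j + 1), 1 / R := by
      apply sum_le_sum
      intro s _
      simpa using hw1 0 s (Nat.zero_le _)
    rw [sum_const, card_range, nsmul_eq_mul] at this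
    have e : ((j + 1 : ℕ) : ℝ) * (1 / R) ≤ δ := by
      rw [mul_one_div, div_le_iff₀ hR0]
      rw [div_le_iff₀ hδ] at hR2
      push_cast
      linarith
    linarith
  · intro l hl
    obtain ⟨z, hz⟩ := h3 (j - l) (by omega)
    refine ⟨z, ?_⟩
    have e1 : j - (j - l) = l := by omega
    have e2 : j - l + 1 = j + 1 - l := by omega
    have e3 : w (j - l) = ((j + 1).choose l : ℝ) * R ^ (j + 1 - l) := by
      simp only [w, e1, e2]
    simp only [e1] at hz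
    rw [← e3]
    refine hz.trans ?_
    have a1 : ∑ t ∈ Ico (j - l + 1) (j + 1), 1 / w t
        ≤ ∑ t ∈ Ico (j - l + 1) (j + 1), 1 / R ^ (j - l + 1 + 1) := by
      apply sum_le_sum
      intro t ht
      exact hw1 _ t (mem_Ico.mp ht).1
    rw [sum_const, Nat.card_Ico, nsmul_eq_mul] at a1
    have a2 : ((j + 1 - (j - l + 1) : ℕ) : ℝ) ≤ j + 1 := by
      have : j + 1 - (j - l + 1) ≤ j + 1 := Nat.sub_le _ _
      exact_mod_cast this
    have a3 : ∑ t ∈ Ico (j - l + 1) (j + 1), 1 / w t ≤ (j + 1) * (1 / R ^ (j - l + 1 + 1)) :=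
      a1.trans (mul_le_mul_of_nonneg_right a2 (by positivity))
    have a4 : w (j - l) ≤ 2 ^ (j + 1) * R ^ (j - l + 1) :=
      mul_le_mul_of_nonneg_right (hc2 _) (pow_pos hR0 _).le
    calc w (j - l) * ∑ t ∈ Ico (j - l + 1) (j + 1), 1 / w t
        ≤ (2 ^ (j + 1) * R ^ (j - l + 1)) * ((j + 1) * (1 / R ^ (j - l + 1 + 1))) := by
          apply mul_le_mul a4 a3
          · exact sum_nonneg fun t _ => (one_div_pos.mpr (hw t)).le
          · positivity
      _ = 2 ^ (j + 1) * (j + 1) / R := by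
          field_simp
          ring
      _ ≤ η := by
          rw [div_le_iff₀ hR0]
          rw [div_le_iff₀ hη] at hR3
          linarith

lemma pow_bound (F : Set ℤ) (hF : F.Finite) (R : ℤ) (m : ℕ) :
    ∃ B : ℝ, 1 ≤ B ∧ ∀ f ∈ F, ∀ l, l ≤ m → |((R + f : ℤ) : ℝ) ^ l| ≤ B := by
  obtain ⟨b, hb⟩ := (hF.image (fun f : ℤ => |((R + f : ℤ) : ℝ)|)).bddAbove
  refine ⟨(max 1 b) ^ m, one_le_pow₀ (le_max_left _ _), fun f hf l hl => ?_⟩
  have h1 : |((R + f : ℤ) : ℝ)| ≤ max 1 b := (hb ⟨f, hf, rfl⟩).trans (le_max_right _ _)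
  rw [abs_pow]
  calc |((R + f : ℤ) : ℝ)| ^ l ≤ (max 1 b) ^ l := pow_le_pow_left₀ (abs_nonneg _) h1 l
    _ ≤ (max 1 b) ^ m := pow_le_pow_right₀ (le_max_left _ _) hl

/-- One stage of the nested interval construction. -/
lemma stage (j : ℕ) (τ τ' : ℝ) (hτ : τ < τ') (F : Set ℤ) (hF : F.Finite) (hI : Itp j τ F)
    (δ : ℝ) (hδ : 0 < δ) (M : ℤ) :
    ∃ (R : ℤ) (δ' : ℝ) (M' : ℤ), 0 < δ' ∧ M ≤ M' ∧ (∀ f ∈ F, M < R + f ∧ R + f ≤ M') ∧
      ∀ (α₀ : ℝ) (c : ℤ → ℝ), ∃ α₁ : ℝ, α₀ ≤ α₁ ∧ α₁ + δ' ≤ α₀ + δ ∧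
        ∀ α, α₁ ≤ α → α ≤ α₁ + δ' → ∀ f ∈ F,
          Near τ' (α * ((R + f : ℤ) : ℝ) ^ (j + 1) - c (R + f)) := by
  set η : ℝ := (τ' - τ) / 3 with hη
  have hη0 : 0 < η := by rw [hη]; linarith
  obtain ⟨B, hB1, hB⟩ := pow_bound F hF 0 (j + 1)
  simp only [zero_add] at hB
  have hB0 : 0 < B := by linarith
  obtain ⟨R₀, hR₀⟩ := scales_pow j (min (δ / 2) (η / B)) (η / ((j + 1) * B))
    (lt_min (by linarith) (div_pos hη0 hB0)) (by positivity)
  obtain ⟨lo, hlo⟩ := hF.bddBelow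
  obtain ⟨hi, hhi⟩ := hF.bddAbove
  set R : ℤ := max ⌈R₀⌉ (M + 1 - lo) with hR
  have hRR : R₀ ≤ (R : ℝ) := (Int.le_ceil R₀).trans (by exact_mod_cast le_max_left _ _)
  obtain ⟨B', hB'1, hB'⟩ := pow_bound F hF R (j + 1)
  have hB'0 : 0 < B' := by linarith
  refine ⟨R, min (δ / 2) (η / B'), max M (R + hi), lt_min (by linarith) (div_pos hη0 hB'0),
    le_max_left _ _, ?_, ?_⟩
  · intro f hf
    have h1 := hlo hf
    have h2 := hhi hf
    have h3 : M + 1 - lo ≤ R := le_max_right _ _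
    have h4 : R + hi ≤ max M (R + hi) := le_max_right _ _
    constructor <;> omega
  · intro α₀ c
    obtain ⟨β, hβ⟩ := hI (fun f => c (R + f) - α₀ * (f : ℝ) ^ (j + 1))
    obtain ⟨α₁, h1, h2, h3⟩ := hR₀ R hRR α₀ β
    choose! z hz using h3
    refine ⟨α₁, h1, ?_, ?_⟩
    · have a1 := min_le_left (δ / 2) (η / B)
      have a2 := min_le_left (δ / 2) (η / B')
      linarith
    · intro α hα1 hα2 f hf
      obtain ⟨y, hy⟩ := hβ f hf
      refine ⟨y + ∑ l ∈ range (j + 1), z l * f ^ l, ?_⟩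
      have e0 : ((R + f : ℤ) : ℝ) ^ (j + 1) = (f : ℝ) ^ (j + 1) +
          ∑ l ∈ range (j + 1), ((j + 1).choose l : ℝ) * (R : ℝ) ^ (j + 1 - l) * (f : ℝ) ^ l := by
        push_cast
        rw [add_comm (R : ℝ), add_pow, sum_range_succ, add_comm]
        simp only [Nat.sub_self, pow_zero, Nat.choose_self, Nat.cast_one, mul_one]
        congr 1
        apply sum_congr rfl
        intro l _
        ring
      have e1 : α * ((R + f : ℤ) : ℝ) ^ (j + 1) - c (R + f)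
          - ((y + ∑ l ∈ range (j + 1), z l * f ^ l : ℤ) : ℝ)
          = (α - α₁) * ((R + f : ℤ) : ℝ) ^ (j + 1) + (α₁ - α₀) * (f : ℝ) ^ (j + 1)
            + (∑ l ∈ range (j + 1), β l * (f : ℝ) ^ l
              - (c (R + f) - α₀ * (f : ℝ) ^ (j + 1)) - y)
            + ∑ l ∈ range (j + 1),
              (((j + 1).choose l : ℝ) * (R : ℝ) ^ (j + 1 - l) * α₁ - β l - z l) * (f : ℝ) ^ l := by
        have e2 : ∑ l ∈ range (j + 1),
              (((j + 1).choose l : ℝ) * (R : ℝ) ^ (j + 1 - l) * α₁ - β l - z l) * (f : ℝ) ^ l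
            = α₁ * ∑ l ∈ range (j + 1), ((j + 1).choose l : ℝ) * (R : ℝ) ^ (j + 1 - l) * (f : ℝ) ^ l
              - ∑ l ∈ range (j + 1), β l * (f : ℝ) ^ l
              - ∑ l ∈ range (j + 1), (z l : ℝ) * (f : ℝ) ^ l := by
          rw [mul_sum, ← sum_sub_distrib, ← sum_sub_distrib]
          apply sum_congr rfl
          intro l _
          ring
        rw [e2]
        have e3 : α * ((R + f : ℤ) : ℝ) ^ (j + 1)
            = (α - α₁) * ((R + f : ℤ) : ℝ) ^ (j + 1) + α₁ * ((R + f : ℤ) : ℝ) ^ (j + 1) := by ring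
        rw [e3]
        nth_rewrite 2 [e0]
        push_cast
        ring
      rw [e1]
      have b1 : |(α - α₁) * ((R + f : ℤ) : ℝ) ^ (j + 1)| ≤ η := by
        rw [abs_mul, abs_of_nonneg (by linarith : 0 ≤ α - α₁)]
        have a2 := min_le_right (δ / 2) (η / B')
        calc (α - α₁) * |((R + f : ℤ) : ℝ) ^ (j + 1)| ≤ (η / B') * B' :=
              mul_le_mul (by linarith) (hB' f hf _ le_rfl) (abs_nonneg _) (by positivity)
          _ = η := by field_simp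
      have b2 : |(α₁ - α₀) * (f : ℝ) ^ (j + 1)| ≤ η := by
        rw [abs_mul, abs_of_nonneg (by linarith : 0 ≤ α₁ - α₀)]
        have a2 := min_le_right (δ / 2) (η / B)
        calc (α₁ - α₀) * |(f : ℝ) ^ (j + 1)| ≤ (η / B) * B :=
              mul_le_mul (by linarith) (hB f hf _ le_rfl) (abs_nonneg _) (by positivity)
          _ = η := by field_simp
      have b3 : |∑ l ∈ range (j + 1),
              (((j + 1).choose l : ℝ) * (R : ℝ) ^ (j + 1 - l) * α₁ - β l - z l) * (f : ℝ) ^ l|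
            ≤ η := by
        refine (abs_sum_le_sum_abs _ _).trans ?_
        have : ∀ l ∈ range (j + 1),
            |(((j + 1).choose l : ℝ) * (R : ℝ) ^ (j + 1 - l) * α₁ - β l - z l) * (f : ℝ) ^ l|
              ≤ η / ((j + 1) * B) * B := by
          intro l hl
          rw [mem_range] at hl
          rw [abs_mul]
          exact mul_le_mul (hz l (by omega)) (hB f hf l (by omega)) (abs_nonneg _) (by positivity)
        refine (sum_le_sum this).trans ?_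
        rw [sum_const, card_range, nsmul_eq_mul]
        push_cast
        field_simp
        exact le_rfl
      have t1 := abs_le.mp b1
      have t2 := abs_le.mp b2
      have t3 := abs_le.mp b3
      have t4 := abs_le.mp hy
      rw [abs_le]
      constructor <;> linarith [t1.1, t1.2, t2.1, t2.2, t3.1, t3.2, t4.1, t4.2]

/-- A sequence of finite sets is translated so fast that the union is interpolated by monomials of
the next degree. -/
lemma translate (j : ℕ) (τ τ' : ℝ) (hτ : τ < τ') (F : ℕ → Set ℤ) (hF : ∀ i, (F i).Finite)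
    (hI : ∀ i, Itp j τ (F i)) :
    ∃ R : ℕ → ℤ, (∀ i, ∀ f ∈ F i, 0 < R i + f) ∧
      (∀ i i', i < i' → ∀ f ∈ F i, ∀ f' ∈ F i', R i + f < R i' + f') ∧
      Mono (j + 1) τ' {n | ∃ i, ∃ f ∈ F i, n = R i + f} := by
  have hs := fun (i : ℕ) (s : {p : ℝ × ℤ // 0 < p.1}) =>
    stage j τ τ' hτ (F i) (hF i) (hI i) s.1.1 s.2 s.1.2
  choose R D M hD hM hb hα using hs
  let st : ℕ → {p : ℝ × ℤ // 0 < p.1} := fun i =>
    Nat.rec (motive := fun _ => {p : ℝ × ℤ // 0 < p.1}) ⟨(1, 0), one_pos⟩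
      (fun i s => ⟨(D i s, M i s), hD i s⟩) i
  have hst : ∀ i, st (i + 1) = ⟨(D i (st i), M i (st i)), hD i (st i)⟩ := fun i => rfl
  have hmono : Monotone fun i => (st i).1.2 := by
    apply monotone_nat_of_le_succ
    intro i
    rw [hst]
    exact hM i (st i)
  refine ⟨fun i => R i (st i), ?_, ?_, ?_⟩
  · intro i f hf
    have h1 := (hb i (st i) f hf).1
    have h2 : (st 0).1.2 ≤ (st i).1.2 := hmono (Nat.zero_le i)
    have h3 : (st 0).1.2 = 0 := rfl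
    simp only
    omega
  · intro i i' hii f hf f' hf'
    have h1 := (hb i (st i) f hf).2
    have h2 := (hb i' (st i') f' hf').1
    have h3 : (st (i + 1)).1.2 ≤ (st i').1.2 := hmono hii
    rw [hst] at h3
    simp only at h3 ⊢
    omega
  · intro c
    choose A hA1 hA2 hA3 using fun i s a => hα i s a c
    let a : ℕ → ℝ := fun i => Nat.rec (motive := fun _ => ℝ) 0 (fun i x => A i (st i) x) i
    have ha : ∀ i, a (i + 1) = A i (st i) (a i) := fun i => rfl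
    have hne : (⋂ i, Set.Icc (a i) (a i + (st i).1.1)).Nonempty := by
      apply IsCompact.nonempty_iInter_of_sequence_nonempty_isCompact_isClosed
      · intro i
        apply Set.Icc_subset_Icc
        · rw [ha]; exact hA1 i (st i) (a i)
        · rw [ha, hst]; exact hA2 i (st i) (a i)
      · intro i
        exact ⟨a i, le_rfl, by linarith [(st i).2]⟩
      · exact isCompact_Icc
      · intro i; exact isClosed_Icc
    obtain ⟨α, hα'⟩ := hne
    refine ⟨α, ?_⟩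
    rintro _ ⟨i, f, hf, rfl⟩
    have h1 := Set.mem_iInter.mp hα' (i + 1)
    rw [ha, hst] at h1
    exact hA3 i (st i) (a i) α h1.1 h1.2 f hf

/-- The two cubes based at `a` and `b` have the same colours. -/
def AllC {κ : Type} (χ : ℤ → κ) : List ℤ → ℤ → ℤ → Prop
  | [], a, b => χ a = χ b
  | h :: hs, a, b => AllC χ hs a b ∧ AllC χ hs (a + h) (b + h)

/-- The two cubes based at `a` and `b` have the same colours away from the base vertex. -/
def Punct {κ : Type} (χ : ℤ → κ) : List ℤ → ℤ → ℤ → Prop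
  | [], _, _ => True
  | h :: hs, a, b => Punct χ hs a b ∧ AllC χ hs (a + h) (b + h)

lemma allC_of_punct {κ : Type} (χ : ℤ → κ) (hs : List ℤ) (a b : ℤ) (h0 : χ a = χ b)
    (h : Punct χ hs a b) : AllC χ hs a b := by
  induction hs with
  | nil => exact h0
  | cons h hs ih => exact ⟨ih h.1, h.2⟩

lemma allC_aff {κ κ' : Type} (χ : ℤ → κ) (χ' : ℤ → κ') (R q : ℤ)
    (hχ : ∀ a b, χ' a = χ' b → χ (R + q * a) = χ (R + q * b)) (hs : List ℤ) :
    ∀ a b, AllC χ' hs a b → AllC χ (hs.map (q * ·)) (R + q * a) (R + q * b) := by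
  induction hs with
  | nil => intro a b h; exact hχ a b h
  | cons h hs ih =>
    intro a b hh
    refine ⟨ih a b hh.1, ?_⟩
    have := ih _ _ hh.2
    simpa only [mul_add, add_assoc] using this

lemma punct_aff {κ κ' : Type} (χ : ℤ → κ) (χ' : ℤ → κ') (R q : ℤ)
    (hχ : ∀ a b, χ' a = χ' b → χ (R + q * a) = χ (R + q * b)) (hs : List ℤ) :
    ∀ a b, Punct χ' hs a b → Punct χ (hs.map (q * ·)) (R + q * a) (R + q * b) := by
  induction hs with
  | nil => intro a b _; trivial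
  | cons h hs ih =>
    intro a b hh
    refine ⟨ih a b hh.1, ?_⟩
    have := allC_aff χ χ' R q hχ hs _ _ hh.2
    simpa only [mul_add, add_assoc] using this

/-- The Ramsey property of a set of pairs. -/
def Ram (j : ℕ) (κ : Type) (P : Set (ℤ × ℤ)) : Prop :=
  ∀ χ : ℤ → κ, ∃ p ∈ P, ∃ hs : List ℤ, hs.length = j ∧ Punct χ hs p.1 p.2

/-- The points which occur in a set of pairs. -/
def supp (P : Set (ℤ × ℤ)) : Set ℤ := Prod.fst '' P ∪ Prod.snd '' P

/-- No first coordinate is a second coordinate. -/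
def Disj (P : Set (ℤ × ℤ)) : Prop := ∀ p ∈ P, ∀ p' ∈ P, p.1 ≠ p'.2

lemma vdw (S : Set ℤ) (hS : S.Finite) (κ : Type) [Finite κ] :
    ∃ Q : ℕ, ∀ χ : ℤ → κ, ∃ q : ℕ, q < Q ∧ ∃ (n₀ : ℤ) (c : κ),
      ∀ s ∈ S, χ (n₀ + ((q + 1 : ℕ) : ℤ) * s) = c := by
  classical
  have := hS.to_subtype
  obtain ⟨ι, _inst, hι⟩ := Combinatorics.Line.exists_mono_in_high_dimension S κ
  refine ⟨Fintype.card ι, fun χ => ?_⟩
  obtain ⟨l, c, hl⟩ := hι fun v => χ <| ∑ i, (v i : ℤ)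
  set s : Finset ι := {i | l.idxFun i = none} with hs
  have hpos : 0 < #s := by
    refine Finset.card_pos.mpr ⟨l.proper.choose, ?_⟩
    rw [hs, Finset.mem_filter]
    exact ⟨Finset.mem_univ _, l.proper.choose_spec⟩
  have hle : #s ≤ Fintype.card ι := Finset.card_le_univ s
  refine ⟨#s - 1, by omega, ∑ i ∈ sᶜ, ((l.idxFun i).map (fun m : S => (m : ℤ))).getD 0, c, ?_⟩
  intro x xs
  rw [← hl ⟨x, xs⟩]
  clear hl
  congr 1
  rw [← Finset.sum_add_sum_compl s, add_comm]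
  congr 1
  · have e : #s - 1 + 1 = #s := by omega
    rw [e, ← nsmul_eq_mul, ← Finset.sum_const]
    apply Finset.sum_congr rfl
    intro i hi
    rw [hs, Finset.mem_filter] at hi
    rw [l.apply_none _ _ hi.right]
  · apply Finset.sum_congr rfl
    intro i hi
    rw [hs, Finset.compl_filter, Finset.mem_filter] at hi
    obtain ⟨y, hy⟩ := Option.ne_none_iff_exists.mp hi.right
    simp [← hy, Option.map_some, Option.getD]

/-- The affine image of a set of pairs. -/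
def aff (R q : ℤ) (P : Set (ℤ × ℤ)) : Set (ℤ × ℤ) :=
  (fun p : ℤ × ℤ => (R + q * p.1, R + q * p.2)) '' P

lemma ram_step (j : ℕ) (κ : Type) [Finite κ] (P : Set (ℤ × ℤ)) (hP : P.Finite)
    (hR : Ram j (κ × κ) P) :
    ∃ Q : ℕ, ∀ (R : ℕ → ℤ) (P' : Set (ℤ × ℤ)),
      (∀ q : ℕ, q < Q → aff (R q) ((q + 1 : ℕ) : ℤ) P ⊆ P') → Ram (j + 1) κ P' := by
  obtain ⟨Q, hQ⟩ := vdw (supp P) ((hP.image _).union (hP.image _)) κ
  refine ⟨Q, fun R P' hP' χ => ?_⟩
  obtain ⟨q, hq, n₀, c, hc⟩ := hQ χ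
  set t : ℤ := ((q + 1 : ℕ) : ℤ) with ht
  obtain ⟨p, hp, hs, hlen, hpu⟩ := hR (fun f => (χ (R q + t * f), χ (n₀ + t * f)))
  refine ⟨(R q + t * p.1, R q + t * p.2), hP' q hq ⟨p, hp, rfl⟩,
    (n₀ - R q) :: hs.map (t * ·), by simp [hlen], ?_, ?_⟩
  · exact punct_aff χ _ (R q) t (fun a b h => congrArg Prod.fst h) hs _ _ hpu
  · have e1 : R q + t * p.1 + (n₀ - R q) = n₀ + t * p.1 := by ring
    have e2 : R q + t * p.2 + (n₀ - R q) = n₀ + t * p.2 := by ring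
    simp only
    rw [e1, e2]
    apply allC_of_punct
    · rw [hc p.1 (Or.inl ⟨p, hp, rfl⟩), hc p.2 (Or.inr ⟨p, hp, rfl⟩)]
    · exact punct_aff χ _ n₀ t (fun a b h => congrArg Prod.snd h) hs _ _ hpu

/-- Translating a sequence of dilated patterns. -/
lemma assemble (j : ℕ) (τ τ' : ℝ) (hτ : τ < τ') (P : ℕ → Set (ℤ × ℤ)) (q : ℕ → ℕ)
    (hP : ∀ i, (P i).Finite) (hD : ∀ i, Disj (P i)) (hI : ∀ i, Itp j τ (supp (P i))) :
    ∃ R : ℕ → ℤ, (∀ n ∈ supp (⋃ i, aff (R i) ((q i + 1 : ℕ) : ℤ) (P i)), 0 < n) ∧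
      Disj (⋃ i, aff (R i) ((q i + 1 : ℕ) : ℤ) (P i)) ∧
      Mono (j + 1) τ' (supp (⋃ i, aff (R i) ((q i + 1 : ℕ) : ℤ) (P i))) := by
  obtain ⟨R, h1, h2, h3⟩ := translate j τ τ' hτ
    (fun i => (fun f => ((q i + 1 : ℕ) : ℤ) * f) '' supp (P i))
    (fun i => (((hP i).image _).union ((hP i).image _)).image _)
    (fun i => (hI i).scale _ (by positivity))
  have hsub : supp (⋃ i, aff (R i) ((q i + 1 : ℕ) : ℤ) (P i)) ⊆
      {n | ∃ i, ∃ f ∈ (fun f => ((q i + 1 : ℕ) : ℤ) * f) '' supp (P i), n = R i + f} := by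
    rintro n (⟨p, hp, rfl⟩ | ⟨p, hp, rfl⟩)
    · obtain ⟨i, p', hp', rfl⟩ := Set.mem_iUnion.mp hp
      exact ⟨i, _, ⟨p'.1, Or.inl ⟨p', hp', rfl⟩, rfl⟩, rfl⟩
    · obtain ⟨i, p', hp', rfl⟩ := Set.mem_iUnion.mp hp
      exact ⟨i, _, ⟨p'.2, Or.inr ⟨p', hp', rfl⟩, rfl⟩, rfl⟩
  refine ⟨R, ?_, ?_, h3.subset hsub⟩
  · intro n hn
    obtain ⟨i, f, hf, rfl⟩ := hsub hn
    exact h1 i f hf
  · intro p hp p' hp'
    obtain ⟨i, s, hs, rfl⟩ := Set.mem_iUnion.mp hp
    obtain ⟨i', s', hs', rfl⟩ := Set.mem_iUnion.mp hp'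
    simp only
    rcases lt_trichotomy i i' with h | h | h
    · exact (h2 i i' h _ ⟨s.1, Or.inl ⟨s, hs, rfl⟩, rfl⟩ _ ⟨s'.2, Or.inr ⟨s', hs', rfl⟩, rfl⟩).ne
    · subst h
      intro e
      have e' := mul_left_cancel₀ (by positivity : ((q i + 1 : ℕ) : ℤ) ≠ 0) (add_left_cancel e)
      exact hD i s hs s' hs' e'
    · exact (h2 i' i h _ ⟨s'.2, Or.inr ⟨s', hs', rfl⟩, rfl⟩ _ ⟨s.1, Or.inl ⟨s, hs, rfl⟩, rfl⟩).ne'

lemma supp_mono {P P' : Set (ℤ × ℤ)} (h : P ⊆ P') : supp P ⊆ supp P' :=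
  Set.union_subset_union (Set.image_mono h) (Set.image_mono h)

/-- Finite patterns of every level. -/
lemma finite_pattern (j : ℕ) : ∀ (κ : Type) [Finite κ], ∃ P : Set (ℤ × ℤ), P.Finite ∧ Disj P ∧
    Itp (j + 1) (1 / 8 - 1 / 8 * (1 / 2) ^ j) (supp P) ∧ Ram j κ P := by
  induction j with
  | zero =>
    intro κ _
    refine ⟨{(0, 1)}, Set.finite_singleton _, ?_, ?_, ?_⟩
    · rintro _ rfl _ rfl
      simp
    · intro c
      refine ⟨fun l => if l = 0 then c 0 else c 1 - c 0, ?_⟩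
      rintro f (⟨_, rfl, rfl⟩ | ⟨_, rfl, rfl⟩)
      · exact ⟨0, by simp [sum_range_succ]⟩
      · exact ⟨0, by simp [sum_range_succ]⟩
    · intro χ
      exact ⟨(0, 1), rfl, [], rfl, trivial⟩
  | succ j ih =>
    intro κ _
    obtain ⟨P, hP, hD, hI, hR⟩ := ih (κ × κ)
    obtain ⟨Q, hQ⟩ := ram_step j κ P hP hR
    obtain ⟨R, -, h2, h3⟩ := assemble (j + 1) _ (1 / 8 - 1 / 8 * (1 / 2) ^ (j + 1))
      (by
        have : (0 : ℝ) < (1 / 2) ^ j := by positivity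
        rw [pow_succ]; linarith) (fun _ => P) (fun i => i) (fun _ => hP) (fun _ => hD) (fun _ => hI)
    have hsub : (⋃ i ∈ Set.Iio Q, aff (R i) ((i + 1 : ℕ) : ℤ) P)
        ⊆ ⋃ i, aff (R i) ((i + 1 : ℕ) : ℤ) P := Set.iUnion₂_subset_iUnion _ _
    refine ⟨⋃ i ∈ Set.Iio Q, aff (R i) ((i + 1 : ℕ) : ℤ) P, ?_, ?_, ?_, ?_⟩
    · exact (Set.finite_Iio Q).biUnion fun i _ => hP.image _
    · intro p hp p' hp'
      exact h2 p (hsub hp) p' (hsub hp')
    · exact (h3.subset (supp_mono hsub)).itp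
    · exact hQ R _ fun q hq => Set.subset_biUnion_of_mem (u := fun i : ℕ =>
        aff (R i) ((i + 1 : ℕ) : ℤ) P) hq

/-- The infinite pattern. -/
theorem pattern (j : ℕ) : ∃ P : Set (ℤ × ℤ), (∀ n ∈ supp P, 0 < n) ∧ Disj P ∧
    Mono (j + 2) (1 / 8) (supp P) ∧ ∀ r : ℕ, Ram (j + 1) (Fin r) P := by
  choose P hP hD hI hR using fun r : ℕ => finite_pattern j (Fin r × Fin r)
  obtain ⟨R, h1, h2, h3⟩ := assemble (j + 1) _ (1 / 8)
    (by
      have : (0 : ℝ) < (1 / 2) ^ j := by positivity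
      linarith : (1 / 8 - 1 / 8 * (1 / 2) ^ j : ℝ) < 1 / 8)
    (fun i => P (Nat.unpair i).1) (fun i => (Nat.unpair i).2) (fun _ => hP _) (fun _ => hD _)
    (fun _ => hI _)
  refine ⟨_, h1, h2, h3, fun r => ?_⟩
  obtain ⟨Q, hQ⟩ := ram_step j (Fin r) (P r) (hP r) (hR r)
  apply hQ (fun q => R (Nat.pair r q))
  intro q _
  refine Set.subset_iUnion_of_subset (Nat.pair r q) ?_
  simp [Nat.unpair_pair]

end Pool.Agent.H5Z.Nil
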