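import Mathlib

/-! Nilsequences and interpolation sets: the definitions used in the final statement. -/

set_option autoImplicit false

namespace Pool.Agent.H5Z.Nil

open scoped Manifold ContDiff

/-- A basic `k`-step nilsequence on the positive integers: `n ↦ F (g ^ n • x)` where `G` is a
(Hausdorff, second countable, finite dimensional real) Lie group which is nilpotent of class at
most `k`, `Γ` is a discrete cocompact subgroup, `g ∈ G`, `x ∈ G ⧸ Γ` and `F` is a continuous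
complex function on `G ⧸ Γ`. -/
def IsBasicNilseq (k : ℕ) (φ : ℕ+ → ℂ) : Prop :=
  ∃ (E : Type) (_ : NormedAddCommGroup E) (_ : NormedSpace ℝ E) (_ : FiniteDimensional ℝ E)
    (G : Type) (_ : Group G) (_ : TopologicalSpace G) (_ : T2Space G)
    (_ : SecondCountableTopology G) (_ : ChartedSpace E G) (_ : LieGroup 𝓘(ℝ, E) ∞ G)
    (Γ : Subgroup G),
    Group.IsNilpotent G ∧ Group.nilpotencyClass G ≤ k ∧
    DiscreteTopology Γ ∧ CompactSpace (G ⧸ Γ) ∧
    ∃ (g : G) (x : G ⧸ Γ) (F : G ⧸ Γ → ℂ), Continuous F ∧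
      ∀ n : ℕ+, φ n = F (g ^ (n : ℕ) • x)

/-- A `k`-step nilsequence: a uniform limit of basic `k`-step nilsequences. -/
def IsNilseq (k : ℕ) (ψ : ℕ+ → ℂ) : Prop :=
  ∃ φ : ℕ → ℕ+ → ℂ, (∀ m, IsBasicNilseq k (φ m)) ∧ TendstoUniformly φ ψ Filter.atTop

/-- A `k`-step interpolation set: every bounded complex function on `S` is the restriction of a
`k`-step nilsequence. -/
def IsInterpolationSet (k : ℕ) (S : Set ℕ+) : Prop :=
  ∀ f : S → ℂ, (∃ C : ℝ, ∀ n, ‖f n‖ ≤ C) →
    ∃ ψ : ℕ+ → ℂ, IsNilseq k ψ ∧ ∀ n : S, ψ n = f n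

end Pool.Agent.H5Z.Nil
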