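import Pool.Agent.H5Z.NilRP
import Pool.Agent.Helper111.EN.NS

/-! A compactly generated nilpotent group without small subgroups, with a discrete cocompact
subgroup, has a filtration compatible with the lattice. -/

set_option autoImplicit false

namespace Pool.Agent.H5Z.Nil

open Topology Filter
open scoped commutatorElement Pointwise

section alg

variable {G : Type} [Group G]

lemma qpow_left (x y : G) (hc : Commute ⁅x, y⁆ x) (n : ℕ) : ⁅x ^ n, y⁆ = ⁅x, y⁆ ^ n := by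
  induction n with
  | zero => simp
  | succ n ih =>
    have e : ⁅x ^ (n + 1), y⁆ = x * ⁅x ^ n, y⁆ * x⁻¹ * ⁅x, y⁆ := by
      rw [pow_succ']; group
    rw [e, ih, ← (hc.pow_left n).eq, mul_inv_cancel_right, pow_succ]

lemma qpow_right (x y : G) (hc : Commute ⁅x, y⁆ y) (n : ℕ) : ⁅x, y ^ n⁆ = ⁅x, y⁆ ^ n := by
  induction n with
  | zero => simp
  | succ n ih =>
    have e : ⁅x, y ^ (n + 1)⁆ = ⁅x, y⁆ * (y * ⁅x, y ^ n⁆ * y⁻¹) := by
      rw [pow_succ']; group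
    rw [e, ih, ← (hc.pow_left n).eq, mul_inv_cancel_right, pow_succ']

lemma commute_mk (M : Subgroup G) [M.Normal] {a b : G} (h : ⁅a, b⁆ ∈ M) :
    Commute (QuotientGroup.mk' M a) (QuotientGroup.mk' M b) := by
  rw [← commutatorElement_eq_one_iff_commute, ← map_commutatorElement, ← MonoidHom.mem_ker,
    QuotientGroup.ker_mk']
  exact h

lemma mem_of_mk_eq (M : Subgroup G) [M.Normal] {a b : G}
    (h : QuotientGroup.mk' M a = QuotientGroup.mk' M b) : a⁻¹ * b ∈ M :=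
  QuotientGroup.eq.mp h

lemma mk_eq_one (M : Subgroup G) [M.Normal] {a : G} (h : a ∈ M) : QuotientGroup.mk' M a = 1 := by
  rw [← MonoidHom.mem_ker, QuotientGroup.ker_mk']
  exact h

lemma pow_left_mod (M : Subgroup G) [M.Normal] (x y : G) (h : ⁅⁅x, y⁆, x⁆ ∈ M) (n : ℕ) :
    QuotientGroup.mk' M ⁅x ^ n, y⁆ = QuotientGroup.mk' M (⁅x, y⁆ ^ n) := by
  have hc := commute_mk M h
  rw [map_commutatorElement] at hc
  rw [map_commutatorElement, map_pow, map_pow, map_commutatorElement, qpow_left _ _ hc]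

lemma pow_right_mod (M : Subgroup G) [M.Normal] (x y : G) (h : ⁅⁅x, y⁆, y⁆ ∈ M) (n : ℕ) :
    QuotientGroup.mk' M ⁅x, y ^ n⁆ = QuotientGroup.mk' M (⁅x, y⁆ ^ n) := by
  have hc := commute_mk M h
  rw [map_commutatorElement] at hc
  rw [map_commutatorElement, map_pow, map_pow, map_commutatorElement, qpow_right _ _ hc]

lemma comm_closure (M : Subgroup G) [hM : M.Normal] (u : G) (S : Set G)
    (h : ∀ s ∈ S, ⁅u, s⁆ ∈ M) : ∀ g ∈ Subgroup.closure S, ⁅u, g⁆ ∈ M := by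
  intro g hg
  induction hg using Subgroup.closure_induction with
  | mem x hx => exact h x hx
  | one => simp
  | mul a b _ _ ha hb =>
    have e : ⁅u, a * b⁆ = ⁅u, a⁆ * (a * ⁅u, b⁆ * a⁻¹) := by group
    rw [e]
    exact M.mul_mem ha (hM.conj_mem _ hb a)
  | inv a _ ha =>
    have e : ⁅u, a⁻¹⁆ = a⁻¹ * ⁅u, a⁆⁻¹ * a⁻¹⁻¹ := by group
    rw [e]
    exact hM.conj_mem _ (M.inv_mem ha) a⁻¹

lemma ucs_comm {j : ℕ} {x : G} (hx : x ∈ Subgroup.upperCentralSeries G j) (y : G) :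
    ⁅x, y⁆ ∈ Subgroup.upperCentralSeries G (j - 1) := by
  cases j with
  | zero =>
    rw [Subgroup.upperCentralSeries_zero, Subgroup.mem_bot] at hx
    simp [hx]
  | succ j => exact Subgroup.mem_upperCentralSeries_succ_iff.mp hx y

lemma ucs_comm' {j : ℕ} (x : G) {y : G} (hy : y ∈ Subgroup.upperCentralSeries G j) :
    ⁅x, y⁆ ∈ Subgroup.upperCentralSeries G (j - 1) := by
  rw [← commutatorElement_inv]
  exact Subgroup.inv_mem _ (ucs_comm hy x)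

/-- The filtration: elements of the `(k - i)`-th centre which lower every centre by `i + 1`. -/
def filt (G : Type) [Group G] (k i : ℕ) : Subgroup G where
  carrier := {x | x ∈ Subgroup.upperCentralSeries G (k - i) ∧
    ∀ j, ∀ y ∈ Subgroup.upperCentralSeries G j, ⁅x, y⁆ ∈ Subgroup.upperCentralSeries G (j - (i + 1))}
  one_mem' := ⟨Subgroup.one_mem _, fun j y _ => by simp⟩
  mul_mem' := by
    rintro a b ⟨h1, h2⟩ ⟨h3, h4⟩
    refine ⟨Subgroup.mul_mem _ h1 h3, fun j y hy => ?_⟩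
    have e : ⁅a * b, y⁆ = a * ⁅b, y⁆ * a⁻¹ * ⁅a, y⁆ := by group
    rw [e]
    exact Subgroup.mul_mem _ (Subgroup.Normal.conj_mem inferInstance _ (h4 j y hy) a) (h2 j y hy)
  inv_mem' := by
    rintro a ⟨h1, h2⟩
    refine ⟨Subgroup.inv_mem _ h1, fun j y hy => ?_⟩
    have e : ⁅a⁻¹, y⁆ = a⁻¹ * ⁅a, y⁆⁻¹ * a⁻¹⁻¹ := by group
    rw [e]
    exact Subgroup.Normal.conj_mem inferInstance _ (Subgroup.inv_mem _ (h2 j y hy)) a⁻¹

lemma mem_filt {k i : ℕ} {x : G} : x ∈ filt G k i ↔ x ∈ Subgroup.upperCentralSeries G (k - i) ∧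
    ∀ j, ∀ y ∈ Subgroup.upperCentralSeries G j, ⁅x, y⁆ ∈ Subgroup.upperCentralSeries G (j - (i + 1)) := Iff.rfl

instance filt_normal (k i : ℕ) : (filt G k i).Normal where
  conj_mem := by
    rintro a ⟨h1, h2⟩ g
    refine ⟨Subgroup.Normal.conj_mem inferInstance _ h1 g, fun j y hy => ?_⟩
    have e : ⁅g * a * g⁻¹, y⁆ = g * ⁅a, g⁻¹ * y * g⁻¹⁻¹⁆ * g⁻¹ := by group
    rw [e]
    exact Subgroup.Normal.conj_mem inferInstance _
      (h2 j _ (Subgroup.Normal.conj_mem inferInstance _ hy g⁻¹)) g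

lemma filt_zero {k : ℕ} (hk : Subgroup.upperCentralSeries G k = ⊤) (x : G) : x ∈ filt G k 0 :=
  ⟨by simp [hk], fun _ _ hy => ucs_comm' x hy⟩

lemma filt_le (k i : ℕ) : filt G k (i + 1) ≤ filt G k i := by
  rintro a ⟨h1, h2⟩
  exact ⟨Subgroup.upperCentralSeries_mono G (by omega) h1,
    fun j y hy => Subgroup.upperCentralSeries_mono G (by omega) (h2 j y hy)⟩

lemma filt_comm (k i l : ℕ) (a : G) (ha : a ∈ filt G k i) (b : G) (hb : b ∈ filt G k l) :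
    ⁅a, b⁆ ∈ filt G k (i + l + 1) := by
  refine ⟨?_, fun j w hw => ?_⟩
  · have := ha.2 _ b hb.1
    have e : k - l - (i + 1) = k - (i + l + 1) := by omega
    rwa [e] at this
  · set M := Subgroup.upperCentralSeries G (j - (i + l + 1 + 1)) with hM
    have h1 : ∀ a' ∈ filt G k i, ∀ w' ∈ Subgroup.upperCentralSeries G j, ⁅a', ⁅b, w'⁆⁆ ∈ M := by
      intro a' ha' w' hw'
      have := ha'.2 _ _ (hb.2 j w' hw')
      have e : j - (l + 1) - (i + 1) = j - (i + l + 1 + 1) := by omega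
      rwa [e] at this
    have h2 : ∀ w' ∈ Subgroup.upperCentralSeries G j, ⁅b, ⁅a, w'⁆⁆ ∈ M := by
      intro w' hw'
      have := hb.2 _ _ (ha.2 j w' hw')
      have e : j - (i + 1) - (l + 1) = j - (i + l + 1 + 1) := by omega
      rwa [e] at this
    have hw' : (b * a)⁻¹ * w * (b * a)⁻¹⁻¹ ∈ Subgroup.upperCentralSeries G j :=
      Subgroup.Normal.conj_mem inferInstance _ hw _
    generalize hv : (b * a)⁻¹ * w * (b * a)⁻¹⁻¹ = v at hw'
    have ew : w = (b * a) * v * (b * a)⁻¹ := by rw [← hv]; group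
    have hav : ⁅a, v⁆ ∈ filt G k i := by
      have e : ⁅a, v⁆ = a * (v * a⁻¹ * v⁻¹) := by group
      rw [e]
      exact Subgroup.mul_mem _ ha
        (Subgroup.Normal.conj_mem inferInstance _ (Subgroup.inv_mem _ ha) v)
    have c1 := commute_mk M (h1 a ha v hw')
    have c2 := commute_mk M (h1 _ hav v hw')
    have c3 := commute_mk M (h2 v hw')
    rw [← QuotientGroup.ker_mk' M, MonoidHom.mem_ker, ew]
    simp only [map_commutatorElement, map_mul, map_inv] at c1 c2 c3 ⊢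
    generalize QuotientGroup.mk' M a = A at c1 c2 c3 ⊢
    generalize QuotientGroup.mk' M b = B at c1 c2 c3 ⊢
    generalize QuotientGroup.mk' M v = V at c1 c2 c3 ⊢
    have e1 : ⁅⁅A, B⁆, B * A * V * (B * A)⁻¹⁆
        = (A * ⁅B, V⁆ * A⁻¹ * ⁅A, V⁆) * (B * ⁅A, V⁆ * B⁻¹ * ⁅B, V⁆)⁻¹ := by group
    rw [e1, c1.eq, c3.eq, mul_inv_cancel_right, mul_inv_cancel_right, c2.eq, mul_inv_cancel]

end alg

/-- The standing assumptions. -/
structure Base (G : Type) [Group G] [TopologicalSpace G] (K : Set G) (Γ : Subgroup G) (k : ℕ) :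
    Prop where
  cpt : IsCompact K
  gen : Subgroup.closure K = ⊤
  cov : ∀ g : G, ∃ κ ∈ K, ∃ l ∈ Γ, g = κ * l
  fg : Γ.FG
  disc : ∃ U ∈ 𝓝 (1 : G), ∀ l ∈ Γ, l ∈ U → l = 1
  nss : ∃ V ∈ 𝓝 (1 : G), ∀ x : G, (∀ n : ℕ, x ^ n ∈ V) → x = 1
  nil : Subgroup.upperCentralSeries G k = ⊤

variable {G : Type} [Group G] [TopologicalSpace G] [IsTopologicalGroup G]
  {K : Set G} {Γ : Subgroup G} {k : ℕ}

lemma Base.layer_nss (h : Base G K Γ k) (i : ℕ) : ∃ V ∈ 𝓝 (1 : G),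
    ∀ w ∈ Subgroup.upperCentralSeries G (i + 1),
      (∀ n : ℕ, ∃ v ∈ V, v⁻¹ * w ^ n ∈ Subgroup.upperCentralSeries G i) → w ∈ Subgroup.upperCentralSeries G i := by
  induction i with
  | zero =>
    obtain ⟨V, hV, hn⟩ := h.nss
    refine ⟨V, hV, fun w _ hw => ?_⟩
    rw [Subgroup.upperCentralSeries_zero, Subgroup.mem_bot]
    apply hn
    intro n
    obtain ⟨v, hv, e⟩ := hw n
    rw [Subgroup.upperCentralSeries_zero, Subgroup.mem_bot, inv_mul_eq_one] at e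
    rwa [← e]
  | succ i ih =>
    obtain ⟨V, hV, hn⟩ := ih
    obtain ⟨U, hU, hc⟩ := comm_small K h.cpt V hV
    refine ⟨U, hU, fun x hx hxn => ?_⟩
    rw [Subgroup.mem_upperCentralSeries_succ_iff]
    intro y
    refine comm_closure _ x K (fun s hs => ?_) y (by rw [h.gen]; trivial)
    have hw : ⁅x, s⁆ ∈ Subgroup.upperCentralSeries G (i + 1) := Subgroup.mem_upperCentralSeries_succ_iff.mp hx s
    apply hn _ hw
    intro n
    obtain ⟨v, hv, e⟩ := hxn n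
    refine ⟨⁅v, s⁆, hc s hs v hv, mem_of_mk_eq _ ?_⟩
    rw [← pow_left_mod _ x s (Subgroup.mem_upperCentralSeries_succ_iff.mp hw x) n]
    have e2 : ⁅x ^ n, s⁆ = v * ⁅v⁻¹ * x ^ n, s⁆ * v⁻¹ * ⁅v, s⁆ := by group
    rw [e2, map_mul, map_mul, map_mul, mk_eq_one _ (Subgroup.mem_upperCentralSeries_succ_iff.mp e s)]
    simp

lemma Base.layer_disc (h : Base G K Γ k) (i : ℕ) : ∃ U ∈ 𝓝 (1 : G),
    ∀ z ∈ Subgroup.upperCentralSeries G i, ∀ l ∈ Γ, z * l ∈ U → z * l ∈ Subgroup.upperCentralSeries G (i + 1) →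
      z * l ∈ Subgroup.upperCentralSeries G i := by
  induction i with
  | zero =>
    obtain ⟨U, hU, hn⟩ := h.disc
    refine ⟨U, hU, fun z hz l hl hu _ => ?_⟩
    rw [Subgroup.upperCentralSeries_zero, Subgroup.mem_bot] at hz ⊢
    rw [hz, one_mul] at hu ⊢
    exact hn l hl hu
  | succ i ih =>
    obtain ⟨U₀, hU₀, hn⟩ := ih
    obtain ⟨V, hV, hL⟩ := h.layer_nss i
    obtain ⟨S, hS⟩ := h.fg
    obtain ⟨U₁, hU₁, hc₁⟩ := comm_small (S : Set G) S.finite_toSet.isCompact U₀ hU₀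
    obtain ⟨U₂, hU₂, hc₂⟩ := comm_small K h.cpt V hV
    refine ⟨U₁ ∩ U₂, inter_mem hU₁ hU₂, fun z hz l hl hu hu2 => ?_⟩
    have hΓ : ∀ g ∈ Γ, ⁅z * l, g⁆ ∈ Subgroup.upperCentralSeries G i := by
      intro g hg
      refine comm_closure _ _ (S : Set G) (fun s hs => ?_) g (by rw [hS]; exact hg)
      have hsΓ : s ∈ Γ := by rw [← hS]; exact Subgroup.subset_closure hs
      have e : ⁅z * l, s⁆ = (⁅z, ⁅l, s⁆⁆ * (⁅l, s⁆ * ⁅z, s⁆ * ⁅l, s⁆⁻¹)) * ⁅l, s⁆ := by group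
      have a1 := hc₁ s hs _ hu.1
      have a2 := Subgroup.mem_upperCentralSeries_succ_iff.mp hu2 s
      rw [e] at a1 a2 ⊢
      refine hn _ (Subgroup.mul_mem _ (Subgroup.mem_upperCentralSeries_succ_iff.mp hz _)
        (Subgroup.Normal.conj_mem inferInstance _ (Subgroup.mem_upperCentralSeries_succ_iff.mp hz _) _))
        _ ?_ a1 a2
      rw [commutatorElement_def]
      exact Γ.mul_mem (Γ.mul_mem (Γ.mul_mem hl hsΓ) (Γ.inv_mem hl)) (Γ.inv_mem hsΓ)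
    generalize z * l = u at hu hu2 hΓ
    rw [Subgroup.mem_upperCentralSeries_succ_iff]
    intro y
    have hw : ⁅u, y⁆ ∈ Subgroup.upperCentralSeries G (i + 1) := Subgroup.mem_upperCentralSeries_succ_iff.mp hu2 y
    apply hL _ hw
    intro n
    obtain ⟨κ, hκ, g, hg, e⟩ := h.cov (y ^ n)
    refine ⟨⁅u, κ⁆, hc₂ κ hκ u hu.2, mem_of_mk_eq _ ?_⟩
    rw [← pow_right_mod _ u y (Subgroup.mem_upperCentralSeries_succ_iff.mp hw y) n, e]
    have e2 : ⁅u, κ * g⁆ = ⁅u, κ⁆ * (κ * ⁅u, g⁆ * κ⁻¹) := by group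
    rw [e2, map_mul, map_mul, map_mul, mk_eq_one _ (hΓ g hg)]
    simp

lemma Base.ucs_disc (h : Base G K Γ k) (j : ℕ) : ∃ U ∈ 𝓝 (1 : G),
    ∀ z ∈ Subgroup.upperCentralSeries G j, ∀ l ∈ Γ, z * l ∈ U → z * l ∈ Subgroup.upperCentralSeries G j := by
  have key : ∀ m : ℕ, ∃ U ∈ 𝓝 (1 : G), ∀ z ∈ Subgroup.upperCentralSeries G j, ∀ l ∈ Γ, z * l ∈ U →
      z * l ∈ Subgroup.upperCentralSeries G (j + m) → z * l ∈ Subgroup.upperCentralSeries G j := by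
    intro m
    induction m with
    | zero => exact ⟨Set.univ, univ_mem, fun z _ l _ _ h => h⟩
    | succ m ih =>
      obtain ⟨U₁, hU₁, h₁⟩ := ih
      obtain ⟨U₂, hU₂, h₂⟩ := h.layer_disc (j + m)
      exact ⟨U₁ ∩ U₂, inter_mem hU₁ hU₂, fun z hz l hl hu hu2 => h₁ z hz l hl hu.1
        (h₂ z (Subgroup.upperCentralSeries_mono G (Nat.le_add_right j m) hz) l hl hu.2 hu2)⟩
  obtain ⟨U, hU, hk⟩ := key k
  refine ⟨U, hU, fun z hz l hl hu => hk z hz l hl hu ?_⟩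
  apply Subgroup.upperCentralSeries_mono G (Nat.le_add_left k j)
  rw [h.nil]; trivial

lemma Base.cpt_of_disc (h : Base G K Γ k) (N : Subgroup G) [hN : N.Normal]
    (hD : ∃ U ∈ 𝓝 (1 : G), ∀ n ∈ N, ∀ l ∈ Γ, n * l ∈ U → n * l ∈ N) :
    ∃ C : Set G, IsCompact C ∧ ∀ n ∈ N, ∃ κ ∈ C, κ ∈ N ∧ ∃ l ∈ Γ, n = κ * l := by
  classical
  obtain ⟨U, hU, hD⟩ := hD
  obtain ⟨W, hW, hWU⟩ := split_small U hU
  obtain ⟨t, -, ht⟩ := h.cpt.elim_nhds_subcover (fun x => {g | g * x⁻¹ ∈ W}) (by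
    intro x _
    have c : Continuous fun g : G => g * x⁻¹ := by fun_prop
    exact c.continuousAt.preimage_mem_nhds (by simpa using hW))
  have hch : ∀ x : G, ∃ l ∈ Γ, (∃ n ∈ N, ∃ l' ∈ Γ, n * l' * x⁻¹ ∈ W) →
      ∃ n ∈ N, n * l * x⁻¹ ∈ W := by
    intro x
    by_cases hx : ∃ n ∈ N, ∃ l' ∈ Γ, n * l' * x⁻¹ ∈ W
    · obtain ⟨n, hn, l, hl, hw⟩ := hx
      exact ⟨l, hl, fun _ => ⟨n, hn, hw⟩⟩
    · exact ⟨1, Γ.one_mem, fun h' => absurd h' hx⟩
  choose L hL hL' using hch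
  refine ⟨⋃ x ∈ t, (fun κ => κ * (L x)⁻¹) '' K,
    t.isCompact_biUnion fun x _ => h.cpt.image (by fun_prop), fun n hn => ?_⟩
  obtain ⟨κ, hκ, l, hl, e⟩ := h.cov n
  obtain ⟨x, hx, hκx⟩ := Set.mem_iUnion₂.mp (ht hκ)
  have eκ : κ = n * l⁻¹ := by rw [e]; group
  have hκx' : κ * x⁻¹ ∈ W := hκx
  obtain ⟨n', hn', hw⟩ := hL' x ⟨n, hn, l⁻¹, Γ.inv_mem hl, by rw [← eκ]; exact hκx'⟩
  have a1 := (hWU _ hκx' _ hw).2.2
  have e2 : κ * x⁻¹ * (n' * L x * x⁻¹)⁻¹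
      = (n * ((l⁻¹ * (L x)⁻¹) * n'⁻¹ * (l⁻¹ * (L x)⁻¹)⁻¹)) * (l⁻¹ * (L x)⁻¹) := by
    rw [eκ]; group
  have a2 : n * ((l⁻¹ * (L x)⁻¹) * n'⁻¹ * (l⁻¹ * (L x)⁻¹)⁻¹) ∈ N :=
    N.mul_mem hn (hN.conj_mem _ (N.inv_mem hn') _)
  rw [e2] at a1
  have a3 := hD _ a2 _ (Γ.mul_mem (Γ.inv_mem hl) (Γ.inv_mem (hL x))) a1
  have a4 : l⁻¹ * (L x)⁻¹ ∈ N := (Subgroup.mul_mem_cancel_left _ a2).mp a3
  refine ⟨κ * (L x)⁻¹, Set.mem_iUnion₂.mpr ⟨x, hx, κ, hκ, rfl⟩, ?_, L x * l,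
    Γ.mul_mem (hL x) hl, by rw [e]; group⟩
  rw [eκ, mul_assoc]
  exact N.mul_mem hn a4

lemma Base.filt_disc_aux (h : Base G K Γ k) (i j : ℕ) (t : ℕ) : ∃ U ∈ 𝓝 (1 : G),
    ∀ n ∈ filt G k i, ∀ l ∈ Γ, n * l ∈ U → ∀ y ∈ Subgroup.upperCentralSeries G j, t ≤ i + 1 →
      ⁅n * l, y⁆ ∈ Subgroup.upperCentralSeries G (j - t) := by
  induction t with
  | zero =>
    exact ⟨Set.univ, univ_mem, fun n _ l _ _ y hy _ =>
      Subgroup.upperCentralSeries_mono G (by omega) (ucs_comm' _ hy)⟩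
  | succ t ih =>
    obtain ⟨U₀, hU₀, h₀⟩ := ih
    set m := j - (t + 1) with hm
    obtain ⟨D, hD, hdisc⟩ := h.ucs_disc m
    obtain ⟨V, hV, hL⟩ := h.layer_nss m
    obtain ⟨C, hC, hCj⟩ := h.cpt_of_disc _ (h.ucs_disc j)
    have hnil : Group.IsNilpotent G := ⟨⟨k, h.nil⟩⟩
    have hfg : (Γ ⊓ Subgroup.upperCentralSeries G j).FG :=
      Pool.Agent.Helper111.EN.NSc.NS_of_nilpotent_fg Γ inferInstance h.fg _ inf_le_left
    obtain ⟨S, hS⟩ := hfg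
    obtain ⟨U₁, hU₁, hc₁⟩ := comm_small (S : Set G) S.finite_toSet.isCompact D hD
    obtain ⟨U₂, hU₂, hc₂⟩ := comm_small C hC V hV
    refine ⟨U₀ ∩ U₁ ∩ U₂, inter_mem (inter_mem hU₀ hU₁) hU₂, fun n hn l hl hu y hy ht => ?_⟩
    have hΓ : ∀ g ∈ Γ ⊓ Subgroup.upperCentralSeries G j, ⁅n * l, g⁆ ∈ Subgroup.upperCentralSeries G m := by
      intro g hg
      refine comm_closure _ _ (S : Set G) (fun s hs => ?_) g (by rw [hS]; exact hg)
      have hsΓ : s ∈ Γ ⊓ Subgroup.upperCentralSeries G j := by rw [← hS]; exact Subgroup.subset_closure hs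
      have e : ⁅n * l, s⁆ = (⁅n, ⁅l, s⁆⁆ * (⁅l, s⁆ * ⁅n, s⁆ * ⁅l, s⁆⁻¹)) * ⁅l, s⁆ := by group
      have a1 := hc₁ s hs _ hu.1.2
      have hle : Subgroup.upperCentralSeries G (j - (i + 1)) ≤ Subgroup.upperCentralSeries G m :=
        Subgroup.upperCentralSeries_mono G (by omega)
      have hls : ⁅l, s⁆ ∈ Subgroup.upperCentralSeries G j :=
        Subgroup.upperCentralSeries_mono G (by omega) (ucs_comm' l hsΓ.2)
      rw [e] at a1 ⊢
      refine hdisc _ (Subgroup.mul_mem _ (hle (hn.2 j _ hls))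
        (Subgroup.Normal.conj_mem inferInstance _ (hle (hn.2 j _ hsΓ.2)) _)) _ ?_ a1
      rw [commutatorElement_def]
      exact Γ.mul_mem (Γ.mul_mem (Γ.mul_mem hl hsΓ.1) (Γ.inv_mem hl)) (Γ.inv_mem hsΓ.1)
    have hw : ⁅n * l, y⁆ ∈ Subgroup.upperCentralSeries G (m + 1) :=
      Subgroup.upperCentralSeries_mono G (by omega) (h₀ n hn l hl hu.1.1 y hy (by omega))
    have hu2 := hu.2
    generalize n * l = u at hu2 hΓ hw
    apply hL _ hw
    intro r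
    obtain ⟨κ, hκ, hκj, g, hg, e⟩ := hCj (y ^ r) (Subgroup.pow_mem _ hy r)
    have hgj : g ∈ Subgroup.upperCentralSeries G j := by
      have : κ * g ∈ Subgroup.upperCentralSeries G j := e ▸ Subgroup.pow_mem _ hy r
      exact (Subgroup.mul_mem_cancel_left _ hκj).mp this
    refine ⟨⁅u, κ⁆, hc₂ κ hκ u hu2, mem_of_mk_eq _ ?_⟩
    rw [← pow_right_mod _ u y (Subgroup.mem_upperCentralSeries_succ_iff.mp hw y) r, e]
    have e2 : ⁅u, κ * g⁆ = ⁅u, κ⁆ * (κ * ⁅u, g⁆ * κ⁻¹) := by group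
    rw [e2, map_mul, map_mul, map_mul, mk_eq_one _ (hΓ g ⟨hg, hgj⟩)]
    simp

lemma Base.filt_disc (h : Base G K Γ k) (i : ℕ) : ∃ U ∈ 𝓝 (1 : G),
    ∀ n ∈ filt G k i, ∀ l ∈ Γ, n * l ∈ U → n * l ∈ filt G k i := by
  choose U hU hUU using fun j => h.filt_disc_aux i j (i + 1)
  obtain ⟨D, hD, hdisc⟩ := h.ucs_disc (k - i)
  refine ⟨D ∩ ⋂ j ∈ Set.Iic k, U j,
    inter_mem hD ((biInter_mem (Set.finite_Iic k)).mpr fun j _ => hU j), fun n hn l hl hu => ?_⟩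
  refine ⟨hdisc n hn.1 l hl hu.1, fun j y hy => ?_⟩
  by_cases hj : j ≤ k
  · exact hUU j n hn l hl (Set.mem_iInter₂.mp hu.2 j hj) y hy le_rfl
  · have := hUU k n hn l hl (Set.mem_iInter₂.mp hu.2 k (Set.mem_Iic.mpr le_rfl)) y
      (by rw [h.nil]; trivial) le_rfl
    exact Subgroup.upperCentralSeries_mono G (by omega) this

theorem Base.good (h : Base G K Γ k) : Good (filt G k) Γ where
  le := filt_le k
  comm i j a ha b hb := filt_comm k i j a ha b hb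
  lat := fun x _ => filt_zero h.nil x
  disc := h.filt_disc
  cpt i := h.cpt_of_disc _ (h.filt_disc i)

theorem Base.last_vertex (h : Base G K Γ k) (V : Set G) (hV : V ∈ 𝓝 (1 : G)) :
    ∃ U ∈ 𝓝 (1 : G), ∀ as : List G, as.length = k → ∀ x y : G,
      PunctG Γ U as x y → Nr Γ V x y := by
  obtain ⟨U, hU, hh⟩ := Nil.last_vertex k G (filt G k) Γ h.good V hV
  refine ⟨U, hU, fun as hlen x y hP => ?_⟩
  obtain ⟨e, he, c, hc, l, hl, ey⟩ := hh as hlen (fun a _ => filt_zero h.nil a) x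
    (filt_zero h.nil x) y (filt_zero h.nil y) hP
  have hc1 : c = 1 := by
    have := hc.1
    rwa [Nat.sub_self, Subgroup.upperCentralSeries_zero, Subgroup.mem_bot] at this
  exact ⟨e, he, l, hl, by rw [ey, hc1, mul_one]⟩

end Pool.Agent.H5Z.Nil
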