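import Pool.Agent.H5Z.NilDefs

/-! The connected nilpotent Lie group of translations of the line acting on tuples of polynomials
of bounded degree; periodic functions of monomials are basic nilsequences. -/

set_option autoImplicit false

namespace Pool.Agent.H5Z.Nil

open Finset
open scoped Manifold ContDiff commutatorElement

/-- Translation of the variable of a polynomial given by its coefficients. -/
def sh {m : ℕ} (t : ℝ) (v : Fin (m + 1) → ℝ) : Fin (m + 1) → ℝ :=
  fun i => ∑ j : Fin (m + 1), ((j : ℕ).choose i : ℝ) * t ^ ((j : ℕ) - i) * v j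

/-- Evaluation of a polynomial given by its coefficients. -/
def ev {m : ℕ} (x : ℝ) (v : Fin (m + 1) → ℝ) : ℝ := ∑ j : Fin (m + 1), v j * x ^ (j : ℕ)

lemma ev_ext {m : ℕ} {v w : Fin (m + 1) → ℝ} (h : ∀ x, ev x v = ev x w) : v = w := by
  have key : ∀ (u : Fin (m + 1) → ℝ) (i : Fin (m + 1)),
      (∑ j : Fin (m + 1), Polynomial.monomial (j : ℕ) (u j)).coeff i = u i := by
    intro u i
    rw [Polynomial.finsetSum_coeff, sum_eq_single i]
    · simp
    · intro j _ hj
      rw [Polynomial.coeff_monomial, if_neg]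
      exact fun e => hj (Fin.ext e)
    · simp
  have e : (∑ j : Fin (m + 1), Polynomial.monomial (j : ℕ) (v j))
      = ∑ j : Fin (m + 1), Polynomial.monomial (j : ℕ) (w j) := by
    apply Polynomial.funext
    intro x
    simpa [Polynomial.eval_finsetSum, ev] using h x
  funext i
  rw [← key v i, ← key w i, e]

lemma ev_sh {m : ℕ} (x t : ℝ) (v : Fin (m + 1) → ℝ) : ev x (sh t v) = ev (x + t) v := by
  simp only [ev, sh, sum_mul]
  rw [sum_comm]
  apply sum_congr rfl
  intro j _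
  rw [add_pow, mul_sum,
    Fin.sum_univ_eq_sum_range (fun i => ((j : ℕ).choose i : ℝ) * t ^ ((j : ℕ) - i) * v j * x ^ i)]
  symm
  apply sum_subset_zero_on_sdiff
  · exact range_subset_range.mpr j.2
  · intro i hi
    rw [mem_sdiff, mem_range, mem_range] at hi
    rw [Nat.choose_eq_zero_of_lt (by omega)]
    simp
  · intro i _
    ring

lemma ev_add {m : ℕ} (x : ℝ) (v w : Fin (m + 1) → ℝ) : ev x (v + w) = ev x v + ev x w := by
  simp [ev, add_mul, sum_add_distrib]

lemma ev_zero {m : ℕ} (v : Fin (m + 1) → ℝ) : ev 0 v = v 0 := by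
  simp [ev, Fin.sum_univ_succ]

lemma sh_zero {m : ℕ} (v : Fin (m + 1) → ℝ) : sh 0 v = v :=
  ev_ext fun x => by rw [ev_sh, add_zero]

lemma sh_sh {m : ℕ} (s t : ℝ) (v : Fin (m + 1) → ℝ) : sh s (sh t v) = sh (s + t) v :=
  ev_ext fun x => by rw [ev_sh, ev_sh, ev_sh, add_assoc]

lemma sh_add {m : ℕ} (t : ℝ) (v w : Fin (m + 1) → ℝ) : sh t (v + w) = sh t v + sh t w := by
  funext i
  simp [sh, mul_add, sum_add_distrib]

lemma sh_neg {m : ℕ} (t : ℝ) (v : Fin (m + 1) → ℝ) : sh t (-v) = -sh t v := by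
  funext i
  simp [sh]

lemma sh_zero' {m : ℕ} (t : ℝ) : sh t (0 : Fin (m + 1) → ℝ) = 0 := by
  funext i
  simp [sh]

lemma sh_top {m : ℕ} (t : ℝ) (v : Fin (m + 1) → ℝ) (i : Fin (m + 1))
    (h : ∀ j : Fin (m + 1), (i : ℕ) < j → v j = 0) : sh t v i = v i := by
  rw [sh, sum_eq_single i]
  · simp
  · intro j _ hj
    rcases lt_or_gt_of_ne (fun e : (j : ℕ) = i => hj (Fin.ext e)) with h' | h'
    · rw [Nat.choose_eq_zero_of_lt h']; simp
    · rw [h j h']; simp
  · simp

lemma sh_int {m : ℕ} (n : ℤ) (v : Fin (m + 1) → ℝ) (h : ∀ j, ∃ z : ℤ, v j = z) (i : Fin (m + 1)) :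
    ∃ z : ℤ, sh n v i = z := by
  choose z hz using h
  refine ⟨∑ j : Fin (m + 1), ((j : ℕ).choose i : ℤ) * n ^ ((j : ℕ) - i) * z j, ?_⟩
  simp [sh, hz]

/-- The underlying vector space. -/
abbrev EE (ι : Type) (m : ℕ) : Type := ℝ × (ι → Fin (m + 1) → ℝ)

/-- The group. -/
def PG (ι : Type) (m : ℕ) : Type := EE ι m

variable {ι : Type} {m : ℕ}

/-- The multiplication. -/
def mulE (x y : EE ι m) : EE ι m := (x.1 + y.1, fun a => x.2 a + sh x.1 (y.2 a))

/-- The inverse. -/
def invE (x : EE ι m) : EE ι m := (-x.1, fun a => -sh (-x.1) (x.2 a))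

instance : Mul (PG ι m) := ⟨mulE⟩
instance : One (PG ι m) := ⟨((0, 0) : EE ι m)⟩
instance : Inv (PG ι m) := ⟨invE⟩

instance : Group (PG ι m) :=
  Group.ofLeftAxioms
    (fun x y z => by
      show mulE (mulE x y) z = mulE x (mulE y z)
      simp only [mulE, sh_add, sh_sh, add_assoc])
    (fun x => by
      show mulE (0, 0) x = x
      simp [mulE, sh_zero])
    (fun x => by
      show mulE (invE x) x = (0, 0)
      refine Prod.ext ?_ ?_
      · simp [mulE, invE]
      · funext a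
        simp [mulE, invE])

lemma mul_fst (x y : PG ι m) : (x * y).1 = x.1 + y.1 := rfl
lemma mul_snd (x y : PG ι m) (a : ι) : (x * y).2 a = x.2 a + sh x.1 (y.2 a) := rfl
lemma inv_fst (x : PG ι m) : (x⁻¹).1 = -x.1 := rfl
lemma inv_snd (x : PG ι m) (a : ι) : (x⁻¹).2 a = -sh (-x.1) (x.2 a) := rfl
lemma one_fst : (1 : PG ι m).1 = 0 := rfl
lemma one_snd (a : ι) : (1 : PG ι m).2 a = 0 := rfl

/-- The descending central series. -/
def ser (ι : Type) (m r : ℕ) : Subgroup (PG ι m) where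
  carrier := {x | (1 ≤ r → x.1 = 0) ∧ ∀ a (i : Fin (m + 1)), m + 2 ≤ i + r → x.2 a i = 0}
  one_mem' := ⟨fun _ => rfl, fun _ _ _ => rfl⟩
  mul_mem' := by
    rintro x y ⟨h1, h2⟩ ⟨h3, h4⟩
    refine ⟨fun hr => by rw [mul_fst, h1 hr, h3 hr, add_zero], fun a i hi => ?_⟩
    rw [mul_snd, Pi.add_apply, h2 a i hi, sh_top _ _ _ (fun j hj => h4 a j (by omega)), h4 a i hi,
      add_zero]
  inv_mem' := by
    rintro x ⟨h1, h2⟩
    refine ⟨fun hr => by rw [inv_fst, h1 hr, neg_zero], fun a i hi => ?_⟩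
    rw [inv_snd, Pi.neg_apply, sh_top _ _ _ (fun j hj => h2 a j (by omega)), h2 a i hi, neg_zero]

lemma comm_fst (x y : PG ι m) : ⁅x, y⁆.1 = 0 := by
  simp only [commutatorElement_def, mul_fst, inv_fst]
  ring

lemma comm_snd (x y : PG ι m) (a : ι) :
    ⁅x, y⁆.2 a = (x.2 a - sh y.1 (x.2 a)) + (sh x.1 (y.2 a) - y.2 a) := by
  simp only [commutatorElement_def, mul_fst, inv_fst, mul_snd, inv_snd, sh_neg, sh_sh]
  have e1 : x.1 + y.1 + -x.1 = y.1 := by ring
  have e2 : y.1 + -y.1 = 0 := by ring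
  rw [e1, e2, sh_zero]
  abel

/-- The series shifted by one, so that the last term is trivial at the right place. -/
def ser' (ι : Type) (m r : ℕ) : Subgroup (PG ι m) := if r = 0 then ⊤ else ser ι m (r + 1)

lemma lcs_bot : (⊤ : Subgroup (PG ι m)).lowerCentralSeries (m + 1) = ⊥ := by
  have h : Subgroup.IsDescendingCentralSeries (ser' ι m) := by
    refine ⟨rfl, fun x r hx y => ?_⟩
    rw [ser', if_neg (Nat.succ_ne_zero r)]
    refine ⟨fun _ => comm_fst x y, fun a i hi => ?_⟩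
    rw [comm_snd]
    simp only [Pi.add_apply, Pi.sub_apply]
    by_cases hr : r = 0
    · rw [sh_top _ _ _ (fun j hj => by omega), sh_top _ _ _ (fun j hj => by omega)]
      ring
    · rw [ser', if_neg hr] at hx
      rw [hx.1 (by omega), sh_zero, sh_top _ _ _ (fun j hj => hx.2 a j (by omega))]
      ring
  refine le_antisymm ((Subgroup.descending_central_series_ge_lower _ h _).trans ?_) bot_le
  intro x hx
  rw [ser', if_neg (Nat.succ_ne_zero m)] at hx
  rw [Subgroup.mem_bot]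
  refine Prod.ext (hx.1 (by omega)) ?_
  funext a i
  exact hx.2 a i (by omega)

/-- The lattice of integral points. -/
def lat (ι : Type) (m : ℕ) : Subgroup (PG ι m) where
  carrier := {x | (∃ n : ℤ, x.1 = n) ∧ ∀ a i, ∃ z : ℤ, x.2 a i = z}
  one_mem' := ⟨⟨0, by simp [one_fst]⟩, fun a i => ⟨0, by simp [one_snd]⟩⟩
  mul_mem' := by
    rintro x y ⟨⟨n, h1⟩, h2⟩ ⟨⟨n', h3⟩, h4⟩
    refine ⟨⟨n + n', by rw [mul_fst, h1, h3]; simp⟩, fun a i => ?_⟩
    obtain ⟨z, hz⟩ := h2 a i
    obtain ⟨z', hz'⟩ := sh_int n _ (h4 a) i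
    exact ⟨z + z', by rw [mul_snd, Pi.add_apply, hz, h1, hz']; simp⟩
  inv_mem' := by
    rintro x ⟨⟨n, h1⟩, h2⟩
    refine ⟨⟨-n, by rw [inv_fst, h1]; simp⟩, fun a i => ?_⟩
    obtain ⟨z', hz'⟩ := sh_int (-n) _ (h2 a) i
    push_cast at hz'
    exact ⟨-z', by rw [inv_snd, Pi.neg_apply, h1, hz']; simp⟩

variable [Fintype ι]

instance : MetricSpace (PG ι m) := inferInstanceAs (MetricSpace (EE ι m))
instance : SecondCountableTopology (PG ι m) := inferInstanceAs (SecondCountableTopology (EE ι m))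
instance : ChartedSpace (EE ι m) (PG ι m) := inferInstanceAs (ChartedSpace (EE ι m) (EE ι m))

lemma contDiff_sh {X : Type} [NormedAddCommGroup X] [NormedSpace ℝ X] {t : X → ℝ}
    {v : X → Fin (m + 1) → ℝ} (ht : ContDiff ℝ ∞ t) (hv : ContDiff ℝ ∞ v) :
    ContDiff ℝ ∞ fun x => sh (t x) (v x) := by
  rw [contDiff_pi]
  intro i
  simp only [sh]
  apply ContDiff.sum
  intro j _
  exact (contDiff_const.mul (ht.pow _)).mul (contDiff_pi.mp hv j)

lemma contDiff_mulE : ContDiff ℝ ∞ fun p : EE ι m × EE ι m => mulE p.1 p.2 := by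
  unfold mulE
  refine ContDiff.prodMk (by fun_prop) (contDiff_pi.mpr fun a => ContDiff.add (by fun_prop) ?_)
  exact contDiff_sh (by fun_prop) (by fun_prop)

lemma contDiff_invE : ContDiff ℝ ∞ fun p : EE ι m => invE p := by
  unfold invE
  refine ContDiff.prodMk (by fun_prop) (contDiff_pi.mpr fun a => ContDiff.neg ?_)
  exact contDiff_sh (by fun_prop) (by fun_prop)

instance : IsManifold 𝓘(ℝ, EE ι m) ∞ (PG ι m) :=
  inferInstanceAs (IsManifold 𝓘(ℝ, EE ι m) ∞ (EE ι m))

instance : LieGroup 𝓘(ℝ, EE ι m) ∞ (PG ι m) where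
  contMDiff_mul :=
    show ContMDiff (𝓘(ℝ, EE ι m).prod 𝓘(ℝ, EE ι m)) 𝓘(ℝ, EE ι m) ∞
      (fun p : EE ι m × EE ι m => mulE p.1 p.2) from
    contDiff_mulE.contMDiff.comp (contMDiff_fst.prodMk_space contMDiff_snd)
  contMDiff_inv :=
    show ContMDiff 𝓘(ℝ, EE ι m) 𝓘(ℝ, EE ι m) ∞ (fun p : EE ι m => invE p) from
    contDiff_invE.contMDiff

lemma continuous_sh {X : Type} [TopologicalSpace X] {t : X → ℝ} {v : X → Fin (m + 1) → ℝ}
    (ht : Continuous t) (hv : Continuous v) : Continuous fun x => sh (t x) (v x) := by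
  unfold sh
  fun_prop

lemma int_eq_of_dist {x y : ℝ} (hx : ∃ z : ℤ, x = z) (hy : ∃ z : ℤ, y = z) (h : dist x y < 1) :
    x = y := by
  obtain ⟨a, rfl⟩ := hx
  obtain ⟨b, rfl⟩ := hy
  rw [Real.dist_eq, ← Int.cast_sub, ← Int.cast_abs] at h
  have : |a - b| < 1 := by exact_mod_cast h
  have : a = b := by
    rw [abs_lt] at this; omega
  rw [this]

lemma lat_discrete : DiscreteTopology (lat ι m) := by
  apply DiscreteTopology.of_forall_le_dist one_pos
  intro x y hxy
  by_contra hlt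
  rw [not_le] at hlt
  apply hxy
  have h' : max (dist x.1.1 y.1.1) (dist x.1.2 y.1.2) < 1 := hlt
  have h := max_lt_iff.mp h'
  refine Subtype.ext (Prod.ext (int_eq_of_dist x.2.1 y.2.1 h.1) ?_)
  funext a i
  exact int_eq_of_dist (x.2.2 a i) (y.2.2 a i)
    (lt_of_le_of_lt ((dist_le_pi_dist _ _ i).trans (dist_le_pi_dist _ _ a)) h.2)

lemma lat_cocompact : CompactSpace (PG ι m ⧸ lat ι m) := by
  let f : EE ι m → PG ι m := fun p => (p.1, fun a => sh p.1 (p.2 a))
  have hf : Continuous f :=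
    show Continuous (fun p : EE ι m => ((p.1, fun a => sh p.1 (p.2 a)) : EE ι m)) from
    continuous_fst.prodMk (continuous_pi fun a => continuous_sh (by fun_prop) (by fun_prop))
  have hK : IsCompact (Set.Icc (0 : EE ι m) 1) := isCompact_Icc
  refine ⟨?_⟩
  have := (hK.image hf).image (QuotientGroup.continuous_mk (N := lat ι m))
  convert this
  symm
  rw [Set.eq_univ_iff_forall]
  intro q
  obtain ⟨g, rfl⟩ := QuotientGroup.mk_surjective q
  let p : EE ι m := (Int.fract g.1, fun a i => Int.fract (sh (-Int.fract g.1) (g.2 a) i))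
  let l : PG ι m := ((⌊g.1⌋ : ℝ), fun a i => (⌊sh (-Int.fract g.1) (g.2 a) i⌋ : ℝ))
  have hl : l ∈ lat ι m := ⟨⟨_, rfl⟩, fun a i => ⟨_, rfl⟩⟩
  have e : g = f p * l := by
    refine Prod.ext ?_ ?_
    · rw [mul_fst]
      exact (Int.fract_add_floor g.1).symm
    · funext a
      rw [mul_snd]
      show g.2 a = sh (Int.fract g.1) (p.2 a) + sh (Int.fract g.1) (l.2 a)
      rw [← sh_add]
      have : p.2 a + l.2 a = sh (-Int.fract g.1) (g.2 a) := by
        funext i
        exact Int.fract_add_floor _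
      rw [this, sh_sh, add_neg_cancel, sh_zero]
  refine ⟨f p, ⟨p, ⟨⟨Int.fract_nonneg _, fun a i => Int.fract_nonneg _⟩,
    ⟨(Int.fract_lt_one _).le, fun a i => (Int.fract_lt_one _).le⟩⟩, rfl⟩, ?_⟩
  rw [e]
  exact (QuotientGroup.mk_mul_of_mem _ hl).symm

/-- The function on the group which is invariant under the lattice. -/
noncomputable def lift (F : (ι → ℝ) → ℂ) (x : PG ι m) : ℂ :=
  (1 - (Int.fract x.1 : ℝ)) * F (fun a => sh (-Int.fract x.1) (x.2 a) 0)
    + (Int.fract x.1 : ℝ) * F (fun a => sh (1 - Int.fract x.1) (x.2 a) 0)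

lemma lift_cont (F : (ι → ℝ) → ℂ) (hF : Continuous F) : Continuous (lift (m := m) F) := by
  have h := ContinuousOn.comp_fract (s := fun x : EE ι m => x.1)
    (f := fun (x : EE ι m) (s : ℝ) => (1 - (s : ℂ)) * F (fun a => sh (-s) (x.2 a) 0)
      + (s : ℂ) * F (fun a => sh (1 - s) (x.2 a) 0)) (by
        apply Continuous.continuousOn
        have c1 : Continuous fun z : EE ι m × ℝ => F (fun a => sh (-z.2) (z.1.2 a) 0) :=
          hF.comp (continuous_pi fun a => (continuous_apply 0).comp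
            (continuous_sh (by fun_prop) (by fun_prop)))
        have c2 : Continuous fun z : EE ι m × ℝ => F (fun a => sh (1 - z.2) (z.1.2 a) 0) :=
          hF.comp (continuous_pi fun a => (continuous_apply 0).comp
            (continuous_sh (by fun_prop) (by fun_prop)))
        exact ((continuous_const.sub (Complex.continuous_ofReal.comp continuous_snd)).mul c1).add
          ((Complex.continuous_ofReal.comp continuous_snd).mul c2))
    continuous_fst (by intro x; simp)
  exact h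

omit [Fintype ι] in
lemma lift_inv (F : (ι → ℝ) → ℂ) (hF : ∀ (u : ι → ℝ) (z : ι → ℤ), F (fun a => u a + z a) = F u)
    (x l : PG ι m) (hl : l ∈ lat ι m) : lift F (x * l) = lift F x := by
  obtain ⟨⟨n, hn⟩, hz⟩ := hl
  have key : ∀ (c : ℤ), F (fun a => sh (c - Int.fract x.1) (x.2 a + sh x.1 (l.2 a)) 0)
      = F (fun a => sh (c - Int.fract x.1) (x.2 a) 0) := by
    intro c
    have e : (c : ℝ) - Int.fract x.1 + x.1 = ((c + ⌊x.1⌋ : ℤ) : ℝ) := by
      rw [Int.fract]; push_cast; ring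
    choose z hz' using fun a => sh_int (c + ⌊x.1⌋) _ (hz a) 0
    rw [← hF (fun a => sh (c - Int.fract x.1) (x.2 a) 0) z]
    congr 1
    funext a
    rw [sh_add, sh_sh, e, Pi.add_apply, hz']
  have k0 := key 0
  have k1 := key 1
  simp only [Int.cast_zero, zero_sub, Int.cast_one] at k0 k1
  simp only [lift, mul_fst, mul_snd, hn, Int.fract_add_intCast]
  rw [k0, k1]

theorem basic_poly (m : ℕ) (α : ι → ℝ) (F : (ι → ℝ) → ℂ) (hF : Continuous F)
    (hper : ∀ (u : ι → ℝ) (z : ι → ℤ), F (fun a => u a + z a) = F u) :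
    IsBasicNilseq (m + 1) fun n => F fun a => α a * ((n : ℕ) : ℝ) ^ (m + 1) := by
  have hnil : Group.IsNilpotent (PG ι m) :=
    Subgroup.nilpotent_iff_lowerCentralSeries.mpr ⟨_, lcs_bot⟩
  have : IsTopologicalGroup (PG ι m) := topologicalGroup_of_lieGroup 𝓘(ℝ, EE ι m) ∞
  let g : PG ι m := ((1 : ℝ), fun a i => α a * ((m + 1).choose i : ℝ))
  let Φ : PG ι m ⧸ lat ι m → ℂ := fun q => lift F q.out
  have hΦ : ∀ x : PG ι m, Φ x = lift F x := by
    intro x
    obtain ⟨l, hl⟩ := QuotientGroup.mk_out_eq_mul (lat ι m) x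
    simp only [Φ]
    rw [hl, lift_inv F hper _ _ l.2]
  have hΦc : Continuous Φ := by
    rw [(QuotientGroup.isQuotientMap_mk (lat ι m)).continuous_iff]
    have : Φ ∘ QuotientGroup.mk = lift F := funext hΦ
    rw [this]
    exact lift_cont F hF
  have hg : ∀ (a : ι) (x : ℝ), ev x (g.2 a) = α a * ((x + 1) ^ (m + 1) - x ^ (m + 1)) := by
    intro a x
    rw [add_pow, sum_range_succ, ev,
      Fin.sum_univ_eq_sum_range (fun i => α a * ((m + 1).choose i : ℝ) * x ^ i)]
    simp only [one_pow, mul_one, Nat.choose_self, Nat.cast_one, add_sub_cancel_right, mul_sum]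
    apply sum_congr rfl
    intro i _
    ring
  have hpow : ∀ n : ℕ, (g ^ n).1 = n ∧
      ∀ (a : ι) (x : ℝ), ev x ((g ^ n).2 a) = α a * ((x + n) ^ (m + 1) - x ^ (m + 1)) := by
    intro n
    induction n with
    | zero =>
      refine ⟨by simp [one_fst], fun a x => ?_⟩
      simp [one_snd, ev]
    | succ n ih =>
      refine ⟨by rw [pow_succ, mul_fst, ih.1]; simp [g], fun a x => ?_⟩
      rw [pow_succ, mul_snd, ev_add, ev_sh, ih.2, ih.1, hg]
      push_cast
      ring_nf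
  refine ⟨EE ι m, inferInstance, inferInstance, inferInstance, PG ι m, inferInstance,
    inferInstance, inferInstance, inferInstance, inferInstance, inferInstance, lat ι m, hnil,
    Subgroup.lowerCentralSeries_eq_bot_iff_nilpotencyClass_le.mp lcs_bot, lat_discrete,
    lat_cocompact, g, ((1 : PG ι m) : PG ι m ⧸ lat ι m), Φ, hΦc, fun n => ?_⟩
  have e : g ^ (n : ℕ) • ((1 : PG ι m) : PG ι m ⧸ lat ι m) = ((g ^ (n : ℕ) : PG ι m) : _) := by
    show ((g ^ (n : ℕ) * 1 : PG ι m) : PG ι m ⧸ lat ι m) = _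
    rw [mul_one]
  rw [e, hΦ, lift, (hpow n).1, Int.fract_natCast]
  simp only [Complex.ofReal_zero, sub_zero, one_mul, neg_zero, zero_mul, add_zero, sh_zero]
  congr 1
  funext a
  have h0 := (hpow n).2 a 0
  rw [ev_zero] at h0
  rw [h0]
  simp

end Pool.Agent.H5Z.Nil
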