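import Pool.Agent.H5Z.NilNeg
import Pool.Agent.H5Z.NilGroup

/-! Sets on which monomials interpolate modulo one are interpolation sets; the main theorem. -/

set_option autoImplicit false

namespace Pool.Agent.H5Z.Nil

open Finset Filter Topology

lemma digits (x : ℝ) (hx : |x| ≤ 1) : ∃ s : ℕ → Bool,
    HasSum (fun j : ℕ => (1 / 2 : ℝ) ^ (j + 1) * (if s j then 1 else -1)) x := by
  obtain ⟨r, hr0, hr⟩ : ∃ r : ℕ → ℝ, r 0 = x ∧
      ∀ j : ℕ, r (j + 1) = 2 * r j - (if (0 : ℝ) ≤ r j then (1 : ℝ) else -1) :=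
    ⟨fun j => Nat.rec (motive := fun _ => ℝ) x
      (fun _ y => 2 * y - (if (0 : ℝ) ≤ y then (1 : ℝ) else -1)) j, rfl, fun _ => rfl⟩
  have hb : ∀ j, |r j| ≤ 1 := by
    intro j
    induction j with
    | zero => rw [hr0]; exact hx
    | succ j ih =>
      rw [hr, abs_le]
      rw [abs_le] at ih
      split_ifs with h
      · constructor <;> linarith
      · constructor <;> linarith
  refine ⟨fun j => decide (0 ≤ r j), ?_⟩
  have hpart : ∀ J, ∑ j ∈ range J, (1 / 2 : ℝ) ^ (j + 1) * (if decide (0 ≤ r j) then 1 else -1)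
      = x - (1 / 2) ^ J * r J := by
    intro J
    induction J with
    | zero => simp [hr0]
    | succ J ih =>
      rw [sum_range_succ, ih, hr]
      simp only [decide_eq_true_eq]
      ring
  rw [hasSum_iff_tendsto_nat_of_summable_norm]
  · simp only [hpart]
    have h0 : Tendsto (fun J : ℕ => (1 / 2 : ℝ) ^ J * r J) atTop (𝓝 0) := by
      apply squeeze_zero_norm (a := fun J : ℕ => (1 / 2 : ℝ) ^ J)
      · intro J
        rw [norm_mul, norm_pow]
        have : ‖(1 / 2 : ℝ)‖ = 1 / 2 := by norm_num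
        rw [this]
        exact mul_le_of_le_one_right (by positivity) (hb J)
      · exact tendsto_pow_atTop_nhds_zero_of_lt_one (by norm_num) (by norm_num)
    simpa using tendsto_const_nhds.sub h0
  · refine Summable.of_nonneg_of_le (fun _ => norm_nonneg _) (fun j => ?_) summable_geometric_two
    rw [norm_mul, norm_pow]
    have : ‖(1 / 2 : ℝ)‖ = 1 / 2 := by norm_num
    rw [this, pow_succ]
    have h1 : ‖(if decide (0 ≤ r j) then 1 else -1 : ℝ)‖ = 1 := by split_ifs <;> simp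
    rw [h1]
    have : (0 : ℝ) < (1 / 2) ^ j := by positivity
    linarith

/-- A periodic function which is `-1` near the integers and `1` near the half integers. -/
noncomputable def theta (x : ℝ) : ℝ := max (-1) (min 1 (8 * ‖(x : UnitAddCircle)‖ - 2))

lemma theta_cont : Continuous theta := by
  have : Continuous fun x : ℝ => (x : UnitAddCircle) := AddCircle.continuous_mk' 1
  unfold theta
  fun_prop

lemma coe_int_zero (z : ℤ) : ((z : ℝ) : UnitAddCircle) = 0 := by
  rw [AddCircle.coe_eq_zero_iff]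
  exact ⟨z, by simp⟩

lemma theta_per (x : ℝ) (z : ℤ) : theta (x + z) = theta x := by
  unfold theta
  rw [AddCircle.coe_add, coe_int_zero, add_zero]

lemma theta_abs (x : ℝ) : |theta x| ≤ 1 := by
  rw [abs_le]
  exact ⟨le_max_left _ _, max_le (by norm_num) (min_le_left _ _)⟩

lemma norm_coe_le (x : ℝ) : ‖(x : UnitAddCircle)‖ ≤ |x| := by
  by_cases h : |x| ≤ 1 / 2
  · exact ((AddCircle.norm_coe_eq_abs_iff (1 : ℝ) one_ne_zero).mpr (by simpa using h)).le
  · have := AddCircle.norm_le_half_period (1 : ℝ) (x := (x : UnitAddCircle)) one_ne_zero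
    rw [abs_one] at this
    linarith

lemma theta_near (x : ℝ) (b : Bool) (h : Near (1 / 8) (x - if b then 1 / 2 else 0)) :
    theta x = if b then 1 else -1 := by
  obtain ⟨z, hz⟩ := h
  cases b with
  | false =>
    simp only [Bool.false_eq_true, if_false, sub_zero] at hz ⊢
    have e : (x : UnitAddCircle) = ((x - z : ℝ) : UnitAddCircle) := by
      rw [AddCircle.coe_sub, coe_int_zero, sub_zero]
    have h1 := norm_coe_le (x - z)
    rw [theta, e]
    apply max_eq_left
    exact (min_le_right _ _).trans (by linarith)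
  | true =>
    simp only [if_true] at hz ⊢
    have e : ((1 / 2 : ℝ) : UnitAddCircle)
        = (x : UnitAddCircle) - ((x - 1 / 2 - z : ℝ) : UnitAddCircle) := by
      rw [AddCircle.coe_sub, AddCircle.coe_sub, coe_int_zero]
      abel
    have h1 := norm_coe_le (x - 1 / 2 - z)
    have h2 : ‖((1 / 2 : ℝ) : UnitAddCircle)‖ = |(1 / 2 : ℝ)| :=
      (AddCircle.norm_coe_eq_abs_iff (1 : ℝ) one_ne_zero).mpr (by norm_num)
    have h3 := norm_sub_le (x : UnitAddCircle) ((x - 1 / 2 - z : ℝ) : UnitAddCircle)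
    rw [← e, h2, abs_of_pos (by norm_num : (0 : ℝ) < 1 / 2)] at h3
    rw [theta, min_eq_left (by linarith)]
    norm_num

theorem interp_of_mono (m : ℕ) (T : Set ℤ) (hT : Mono (m + 1) (1 / 8) T) :
    IsInterpolationSet (m + 1) {n : ℕ+ | ((n : ℕ) : ℤ) ∈ T} := by
  classical
  rintro f ⟨C, hC⟩
  set D : ℝ := |C| + 1 with hD
  have hD0 : 0 < D := by positivity
  have hb : ∀ n, ‖f n‖ ≤ D := fun n => (hC n).trans (by linarith [le_abs_self C])
  have h1 : ∀ n, |(f n).re / D| ≤ 1 := by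
    intro n
    rw [abs_div, abs_of_pos hD0, div_le_one hD0]
    exact (Complex.abs_re_le_norm _).trans (hb n)
  have h2 : ∀ n, |(f n).im / D| ≤ 1 := by
    intro n
    rw [abs_div, abs_of_pos hD0, div_le_one hD0]
    exact (Complex.abs_im_le_norm _).trans (hb n)
  choose s hs using fun n => digits _ (h1 n)
  choose t ht using fun n => digits _ (h2 n)
  have hα : ∀ (b : {n : ℕ+ | ((n : ℕ) : ℤ) ∈ T} → Bool), ∃ α : ℝ,
      ∀ n : {n : ℕ+ | ((n : ℕ) : ℤ) ∈ T},
        theta (α * (((n : ℕ+) : ℕ) : ℝ) ^ (m + 1)) = if b n then 1 else -1 := by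
    intro b
    obtain ⟨α, hα⟩ := hT (fun z => if ∃ n : {n : ℕ+ | ((n : ℕ) : ℤ) ∈ T},
      (((n : ℕ+) : ℕ) : ℤ) = z ∧ b n = true then 1 / 2 else 0)
    refine ⟨α, fun n => theta_near _ _ ?_⟩
    have := hα _ n.2
    have e : (∃ n' : {n : ℕ+ | ((n : ℕ) : ℤ) ∈ T},
        (((n' : ℕ+) : ℕ) : ℤ) = (((n : ℕ+) : ℕ) : ℤ) ∧ b n' = true) ↔ b n = true := by
      constructor
      · rintro ⟨n', e, h⟩
        have : n' = n := Subtype.ext (PNat.eq (by exact_mod_cast e))
        rwa [this] at h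
      · exact fun h => ⟨n, rfl, h⟩
    simp only [e, Int.cast_natCast] at this
    exact this
  choose α hα' using fun j : ℕ => hα (fun n => s n j)
  choose β hβ' using fun j : ℕ => hα (fun n => t n j)
  let u : ℕ → ℕ+ → ℂ := fun j n =>
    ((D * ((1 / 2 : ℝ) ^ (j + 1) * theta (α j * ((n : ℕ) : ℝ) ^ (m + 1))) : ℝ) : ℂ)
      + ((D * ((1 / 2 : ℝ) ^ (j + 1) * theta (β j * ((n : ℕ) : ℝ) ^ (m + 1))) : ℝ) : ℂ) * Complex.I
  have hterm : ∀ (j : ℕ) (x : ℝ), |D * ((1 / 2 : ℝ) ^ (j + 1) * theta x)| ≤ D * (1 / 2) ^ (j + 1) := by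
    intro j x
    rw [abs_mul, abs_mul, abs_of_pos hD0, abs_of_pos (by positivity : (0 : ℝ) < (1 / 2) ^ (j + 1))]
    exact mul_le_mul_of_nonneg_left (mul_le_of_le_one_right (by positivity) (theta_abs x)) hD0.le
  refine ⟨fun n => ∑' j, u j n, ⟨fun J n => ∑ j ∈ range J, u j n, fun J => ?_, ?_⟩, fun n => ?_⟩
  · have := basic_poly (ι := Fin J × Bool) m (fun a => if a.2 then β a.1 else α a.1)
      (fun y => ∑ j : Fin J, (((D * ((1 / 2 : ℝ) ^ ((j : ℕ) + 1) * theta (y (j, false))) : ℝ) : ℂ)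
        + ((D * ((1 / 2 : ℝ) ^ ((j : ℕ) + 1) * theta (y (j, true))) : ℝ) : ℂ) * Complex.I))
      (by
        have := theta_cont
        fun_prop)
      (by
        intro y z
        simp only [theta_per])
    convert this using 2 with n
    show ∑ j ∈ range J, u j n = _
    rw [← Fin.sum_univ_eq_sum_range (fun j => u j n)]
    simp [u]
  · apply tendstoUniformly_tsum_nat (u := fun j => D * (1 / 2 : ℝ) ^ j)
      (summable_geometric_two.mul_left D)
    intro j n
    refine (norm_add_le _ _).trans ?_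
    rw [norm_mul, Complex.norm_I, mul_one, Complex.norm_real, Complex.norm_real, Real.norm_eq_abs,
      Real.norm_eq_abs]
    have a1 := hterm j (α j * ((n : ℕ) : ℝ) ^ (m + 1))
    have a2 := hterm j (β j * ((n : ℕ) : ℝ) ^ (m + 1))
    have e : D * (1 / 2 : ℝ) ^ j = D * (1 / 2) ^ (j + 1) + D * (1 / 2) ^ (j + 1) := by ring
    linarith
  · have a1 := (Complex.hasSum_ofReal.mpr ((hs n).mul_left D))
    have a2 := (Complex.hasSum_ofReal.mpr ((ht n).mul_left D)).mul_right Complex.I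
    have a3 := a1.add a2
    have e1 : ((D * ((f n).re / D) : ℝ) : ℂ) + ((D * ((f n).im / D) : ℝ) : ℂ) * Complex.I = f n := by
      rw [mul_div_cancel₀ _ hD0.ne', mul_div_cancel₀ _ hD0.ne', Complex.re_add_im]
    rw [e1] at a3
    show ∑' j, u j n = f n
    rw [← a3.tsum_eq]
    congr 1
    funext j
    simp only [u]
    rw [hα' j n, hβ' j n]

theorem main (k : ℕ) (hk : 1 ≤ k) :
    ∃ S : Set ℕ+, IsInterpolationSet (k + 1) S ∧ ¬ IsInterpolationSet k S := by
  obtain ⟨j, rfl⟩ := Nat.exists_eq_add_of_le' hk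
  obtain ⟨P, h1, h2, h3, h4⟩ := pattern j
  exact ⟨_, interp_of_mono (j + 1) _ h3, not_interp (j + 1) P h1 h2 h4⟩

end Pool.Agent.H5Z.Nil
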