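import Mathlib

/-! Lie groups have no small subgroups. -/

set_option autoImplicit false

namespace Pool.Agent.H5Z.Nil

open Topology Filter
open scoped Manifold ContDiff

theorem lie_nss {E : Type} [NormedAddCommGroup E] [NormedSpace ℝ E] {G : Type} [Group G]
    [TopologicalSpace G] [ChartedSpace E G] [LieGroup 𝓘(ℝ, E) ∞ G] :
    ∃ V ∈ 𝓝 (1 : G), ∀ x : G, (∀ n : ℕ, x ^ n ∈ V) → x = 1 := by
  have hm : MDifferentiableAt (𝓘(ℝ, E).prod 𝓘(ℝ, E)) 𝓘(ℝ, E) (fun p : G × G => p.1 * p.2)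
      ((1 : G), (1 : G)) :=
    (contMDiff_mul 𝓘(ℝ, E) ∞).mdifferentiableAt (by simp)
  have hd := (hasMFDerivAt_id (I := 𝓘(ℝ, E)) (1 : G)).prodMk (hasMFDerivAt_id (I := 𝓘(ℝ, E)) (1 : G))
  have hsq := HasMFDerivAt.comp (1 : G) (g := fun p : G × G => p.1 * p.2)
    (f := fun g : G => (id g, id g)) hm.hasMFDerivAt hd
  set e := extChartAt 𝓘(ℝ, E) (1 : G) with he
  set u₀ : E := e 1 with hu₀
  have hF : HasFDerivAt (fun u : E => e (e.symm u * e.symm u))
      (ContinuousLinearMap.id ℝ E + ContinuousLinearMap.id ℝ E) u₀ := by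
    have h2 := hsq.2
    rw [modelWithCornersSelf_coe, Set.range_id, hasFDerivWithinAt_univ] at h2
    have e1 : writtenInExtChartAt 𝓘(ℝ, E) 𝓘(ℝ, E) (1 : G)
        ((fun p : G × G => p.1 * p.2) ∘ fun g : G => (id g, id g))
        = fun u : E => e (e.symm u * e.symm u) := by
      funext u
      simp only [writtenInExtChartAt, Function.comp, id, mul_one, he]
    rw [e1] at h2
    refine HasFDerivAt.congr_fderiv h2 (ContinuousLinearMap.ext fun v : E => ?_)
    have h3 := mfderiv_prod_eq_add_apply (v := ((v, v) : E × E)) hm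
    have a1 : (fun z : G => z * 1) = id := by funext z; simp
    have a2 : (fun z : G => 1 * z) = id := by funext z; simp
    simp only at h3
    rw [a1, a2, mfderiv_id] at h3
    exact h3
  have hq0 : e (e.symm u₀ * e.symm u₀) = u₀ := by
    rw [hu₀, he, extChartAt_to_inv, mul_one]
  have hev := (hasFDerivAt_iff_isLittleO.mp hF).def (show (0 : ℝ) < 1 / 2 by norm_num)
  have hcont : ContinuousAt e 1 := continuousAt_extChartAt (1 : G)
  have hV : ∀ᶠ g in 𝓝 (1 : G), g ∈ e.source ∧ (‖e g - u₀‖ < 1 ∧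
      ‖e (e.symm (e g) * e.symm (e g)) - e (e.symm u₀ * e.symm u₀)
        - (ContinuousLinearMap.id ℝ E + ContinuousLinearMap.id ℝ E) (e g - u₀)‖
        ≤ 1 / 2 * ‖e g - u₀‖) := by
    refine Filter.Eventually.and (extChartAt_source_mem_nhds (1 : G)) ?_
    have b1 : ∀ᶠ u in 𝓝 u₀, ‖u - u₀‖ < 1 := by
      have := Metric.ball_mem_nhds u₀ one_pos
      filter_upwards [this] with u hu
      rwa [Metric.mem_ball, dist_eq_norm] at hu
    exact hcont.eventually (b1.and hev)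
  refine ⟨_, hV, fun x hx => ?_⟩
  have step : ∀ n : ℕ, 3 / 2 * ‖e (x ^ n) - u₀‖ ≤ ‖e (x ^ (2 * n)) - u₀‖ := by
    intro n
    obtain ⟨h1, -, h3⟩ := hx n
    rw [e.left_inv h1, hq0, ← pow_add, ← two_mul] at h3
    simp only [add_apply, ContinuousLinearMap.id_apply] at h3
    have h4 := norm_sub_norm_le (e (x ^ n) - u₀ + (e (x ^ n) - u₀)) (e (x ^ (2 * n)) - u₀)
    rw [norm_sub_rev] at h3
    have h5 : ‖e (x ^ n) - u₀ + (e (x ^ n) - u₀)‖ = 2 * ‖e (x ^ n) - u₀‖ := by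
      rw [← two_smul ℝ, norm_smul]; simp
    linarith
  have grow : ∀ m : ℕ, (3 / 2) ^ m * ‖e x - u₀‖ ≤ ‖e (x ^ (2 ^ m)) - u₀‖ := by
    intro m
    induction m with
    | zero => simp
    | succ m ih =>
      have := step (2 ^ m)
      rw [pow_succ' 2, pow_succ' (3 / 2 : ℝ), mul_assoc]
      linarith
  have h0 : ‖e x - u₀‖ = 0 := by
    by_contra hne
    have hpos : 0 < ‖e x - u₀‖ := lt_of_le_of_ne (norm_nonneg _) (Ne.symm hne)
    obtain ⟨m, hm⟩ := pow_unbounded_of_one_lt (1 / ‖e x - u₀‖) (show (1 : ℝ) < 3 / 2 by norm_num)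
    have h1 := grow m
    have h2 := (hx (2 ^ m)).2.1
    rw [div_lt_iff₀ hpos] at hm
    linarith
  have h1 : e x = e 1 := by rwa [norm_eq_zero, sub_eq_zero] at h0
  have hx1 : x ∈ e.source := by simpa using (hx 1).1
  exact e.injOn hx1 (mem_extChartAt_source (1 : G)) h1

end Pool.Agent.H5Z.Nil
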