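import Pool.Agent.H5Z.NilComb
import Pool.Agent.H5Z.NilFilt
import Pool.Agent.H5Z.NilNSS
import Pool.Agent.H5Z.NilDefs

/-! A set of pairs with the Ramsey property for `k`-dimensional cubes is not separated by
`k`-step nilsequences. -/

set_option autoImplicit false

namespace Pool.Agent.H5Z.Nil

open Topology Filter
open scoped Pointwise Manifold ContDiff

section general

variable {G : Type} [Group G] [TopologicalSpace G] [IsTopologicalGroup G]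

lemma cover_small (C : Set G) (hC : IsCompact C) (W : Set G) (hW : W ∈ 𝓝 (1 : G)) :
    ∃ t : Finset G, ∀ κ ∈ C, ∃ x ∈ t, κ * x⁻¹ ∈ W := by
  obtain ⟨t, -, ht⟩ := hC.elim_nhds_subcover (fun x => {g | g * x⁻¹ ∈ W}) (by
    intro x _
    have c : Continuous fun g : G => g * x⁻¹ := by fun_prop
    exact c.continuousAt.preimage_mem_nhds (by simpa using hW))
  refine ⟨t, fun κ hκ => ?_⟩
  obtain ⟨x, hx, h⟩ := Set.mem_iUnion₂.mp (ht hκ)
  exact ⟨x, hx, h⟩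

lemma finite_inter (Γ : Subgroup G) (hd : ∃ U ∈ 𝓝 (1 : G), ∀ l ∈ Γ, l ∈ U → l = 1)
    (C : Set G) (hC : IsCompact C) : (C ∩ Γ).Finite := by
  obtain ⟨U, hU, hd⟩ := hd
  obtain ⟨W, hW, hWU⟩ := split_small U hU
  obtain ⟨t, ht⟩ := cover_small C hC W hW
  have : C ∩ Γ ⊆ ⋃ x ∈ t, {l | l ∈ Γ ∧ l * x⁻¹ ∈ W} := by
    rintro l ⟨h1, h2⟩
    obtain ⟨x, hx, h⟩ := ht l h1
    exact Set.mem_iUnion₂.mpr ⟨x, hx, h2, h⟩
  refine Set.Finite.subset (t.finite_toSet.biUnion fun x _ => Set.Subsingleton.finite ?_) this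
  rintro a ⟨ha, ha'⟩ b ⟨hb, hb'⟩
  have h1 := (hWU _ ha' _ hb').2.2
  have e : a * x⁻¹ * (b * x⁻¹)⁻¹ = a * b⁻¹ := by group
  rw [e] at h1
  exact mul_inv_eq_one.mp (hd _ (Γ.mul_mem ha (Γ.inv_mem hb)) h1)

lemma fg_lattice (Γ : Subgroup G) (hd : ∃ U ∈ 𝓝 (1 : G), ∀ l ∈ Γ, l ∈ U → l = 1)
    (K : Set G) (hK : IsCompact K) (hgen : Subgroup.closure K = ⊤)
    (hcov : ∀ g : G, ∃ κ ∈ K, ∃ l ∈ Γ, g = κ * l) : Γ.FG := by
  set C : Set G := K ∪ K⁻¹ ∪ K⁻¹ * (K ∪ K⁻¹) * K with hC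
  have hCc : IsCompact C := (hK.union hK.inv).union ((hK.inv.mul (hK.union hK.inv)).mul hK)
  have hfin := finite_inter Γ hd C hCc
  have hle : Subgroup.closure (C ∩ Γ) ≤ Γ := by
    rw [Subgroup.closure_le]; exact Set.inter_subset_right
  have step : ∀ x ∈ K ∪ K⁻¹, ∀ y : G, (∃ κ ∈ K, ∃ l ∈ Subgroup.closure (C ∩ Γ), y = κ * l) →
      ∃ κ ∈ K, ∃ l ∈ Subgroup.closure (C ∩ Γ), x * y = κ * l := by
    rintro x hx _ ⟨κ, hκ, l, hl, rfl⟩
    obtain ⟨κ', hκ', m, hm, e⟩ := hcov (x * κ)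
    refine ⟨κ', hκ', m * l, Subgroup.mul_mem _ (Subgroup.subset_closure ⟨Or.inr ?_, hm⟩) hl, ?_⟩
    · have e2 : m = κ'⁻¹ * x * κ := by rw [mul_assoc, e]; group
      rw [e2]
      exact Set.mul_mem_mul (Set.mul_mem_mul (Set.inv_mem_inv.mpr hκ') hx) hκ
    · rw [← mul_assoc, e, mul_assoc]
  have key : ∀ y ∈ Subgroup.closure K, ∃ κ ∈ K, ∃ l ∈ Subgroup.closure (C ∩ Γ), y = κ * l := by
    intro y hy
    induction hy using Subgroup.closure_induction_left with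
    | one =>
      obtain ⟨κ, hκ, l, hl, e⟩ := hcov 1
      refine ⟨κ, hκ, l, Subgroup.subset_closure ⟨Or.inl (Or.inr ?_), hl⟩, e⟩
      have e2 : l = κ⁻¹ := (inv_eq_of_mul_eq_one_right e.symm).symm
      rw [e2]
      exact Set.inv_mem_inv.mpr hκ
    | mul_left x hx y _ ih => exact step x (Or.inl hx) y ih
    | inv_mul_cancel x hx y _ ih => exact step x⁻¹ (Or.inr (Set.inv_mem_inv.mpr hx)) y ih
  rw [Subgroup.fg_iff]
  refine ⟨C ∩ Γ, le_antisymm hle fun y hy => ?_, hfin⟩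
  obtain ⟨κ, hκ, l, hl, e⟩ := key y (by rw [hgen]; trivial)
  have hκΓ : κ ∈ Γ := by
    have : κ * l ∈ Γ := e ▸ hy
    exact (Subgroup.mul_mem_cancel_right _ (hle hl)).mp this
  rw [e]
  exact Subgroup.mul_mem _ (Subgroup.subset_closure ⟨Or.inl (Or.inl hκ), hκΓ⟩) hl

omit [TopologicalSpace G] [IsTopologicalGroup G] in
lemma allG_of_allC {κ : Type} (χ : ℤ → κ) (Γ : Subgroup G) (U : Set G) (g x : G)
    (hχ : ∀ a b, χ a = χ b → Nr Γ U (g ^ a * x) (g ^ b * x)) (hs : List ℤ) :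
    ∀ a b, AllC χ hs a b → AllG Γ U (hs.map fun h => g ^ h) (g ^ a * x) (g ^ b * x) := by
  induction hs with
  | nil => intro a b h; exact hχ a b h
  | cons h hs ih =>
    intro a b hh
    refine ⟨ih a b hh.1, ?_⟩
    have := ih _ _ hh.2
    rwa [add_comm a, add_comm b, zpow_add, zpow_add, mul_assoc, mul_assoc] at this

omit [TopologicalSpace G] [IsTopologicalGroup G] in
lemma punctG_of_punct {κ : Type} (χ : ℤ → κ) (Γ : Subgroup G) (U : Set G) (g x : G)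
    (hχ : ∀ a b, χ a = χ b → Nr Γ U (g ^ a * x) (g ^ b * x)) (hs : List ℤ) :
    ∀ a b, Punct χ hs a b → PunctG Γ U (hs.map fun h => g ^ h) (g ^ a * x) (g ^ b * x) := by
  induction hs with
  | nil => intro a b _; trivial
  | cons h hs ih =>
    intro a b hh
    refine ⟨ih a b hh.1, ?_⟩
    have := allG_of_allC χ Γ U g x hχ hs _ _ hh.2
    rwa [add_comm a, add_comm b, zpow_add, zpow_add, mul_assoc, mul_assoc] at this

theorem Base.ram {K : Set G} {Γ : Subgroup G} {k : ℕ} (h : Base G K Γ k) (g x : G)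
    (V : Set G) (hV : V ∈ 𝓝 (1 : G)) (P : Set (ℤ × ℤ)) (hP : ∀ r : ℕ, Ram k (Fin r) P) :
    ∃ p ∈ P, Nr Γ V (g ^ p.1 * x) (g ^ p.2 * x) := by
  obtain ⟨U, hU, hlast⟩ := h.last_vertex V hV
  obtain ⟨W, hW, hWU⟩ := split_small U hU
  obtain ⟨t, ht⟩ := cover_small K h.cpt W hW
  choose κ hκ l hl e using fun n : ℤ => h.cov (g ^ n * x)
  choose c hc hcW using fun n : ℤ => ht (κ n) (hκ n)
  let χ : ℤ → Fin (Fintype.card t) := fun n => Fintype.equivFin t ⟨c n, hc n⟩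
  obtain ⟨p, hp, hs, hlen, hpu⟩ := hP _ χ
  refine ⟨p, hp, hlast (hs.map fun h => g ^ h) (by simpa using hlen) _ _
    (punctG_of_punct χ Γ U g x ?_ hs _ _ hpu)⟩
  intro a b hab
  have hcc : c a = c b := congrArg Subtype.val ((Fintype.equivFin t).injective hab)
  refine ⟨κ b * (c b)⁻¹ * (κ a * (c a)⁻¹)⁻¹, (hWU _ (hcW b) _ (hcW a)).2.2, (l a)⁻¹ * l b,
    Γ.mul_mem (Γ.inv_mem (hl a)) (hl b), ?_⟩
  rw [e a, e b, hcc]
  group

lemma exists_cpt_cover [WeaklyLocallyCompactSpace G] (Γ : Subgroup G) [CompactSpace (G ⧸ Γ)] :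
    ∃ K : Set G, IsCompact K ∧ ∀ g : G, ∃ κ ∈ K, ∃ l ∈ Γ, g = κ * l := by
  choose C hC hCn using fun y : G => exists_compact_mem_nhds y
  obtain ⟨t, -, ht⟩ := (isCompact_univ (X := G ⧸ Γ)).elim_nhds_subcover
    (fun q => (QuotientGroup.mk : G → G ⧸ Γ) '' C q.out) (by
      intro q _
      have := (QuotientGroup.isOpenMap_coe (N := Γ)).image_mem_nhds (hCn q.out)
      rwa [QuotientGroup.out_eq'] at this)
  refine ⟨⋃ q ∈ t, C q.out, t.isCompact_biUnion fun q _ => hC _, fun g => ?_⟩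
  obtain ⟨q, hq, κ, hκ, e⟩ := Set.mem_iUnion₂.mp (ht (Set.mem_univ (g : G ⧸ Γ)))
  exact ⟨κ, Set.mem_iUnion₂.mpr ⟨q, hq, hκ⟩, κ⁻¹ * g, QuotientGroup.eq.mp e, by group⟩

theorem ram_quot [WeaklyLocallyCompactSpace G] (Γ : Subgroup G) [DiscreteTopology Γ]
    [CompactSpace (G ⧸ Γ)] (k : ℕ) [Group.IsNilpotent G] (hk : Group.nilpotencyClass G ≤ k)
    (nss : ∃ V ∈ 𝓝 (1 : G), ∀ x : G, (∀ n : ℕ, x ^ n ∈ V) → x = 1)
    (g : G) (x : G ⧸ Γ) (F : G ⧸ Γ → ℂ) (hF : Continuous F) (ε : ℝ) (hε : 0 < ε)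
    (P : Set (ℤ × ℤ)) (hP : ∀ r : ℕ, Ram k (Fin r) P) :
    ∃ p ∈ P, ‖F (g ^ p.2 • x) - F (g ^ p.1 • x)‖ < ε := by
  obtain ⟨x₀, rfl⟩ := QuotientGroup.mk_surjective x
  obtain ⟨K₀, hK₀, hcov⟩ := exists_cpt_cover Γ
  set K : Set G := K₀ ∪ {g, x₀} with hK
  have hKc : IsCompact K := hK₀.union (Set.toFinite _).isCompact
  set H : Subgroup G := Subgroup.closure K with hH
  have hg : g ∈ H := Subgroup.subset_closure (Or.inr (by simp))
  have hx : x₀ ∈ H := Subgroup.subset_closure (Or.inr (by simp))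
  have hc : Continuous (Subtype.val : H → G) := continuous_subtype_val
  have hnh : ∀ V ∈ 𝓝 (1 : G), (Subtype.val : H → G) ⁻¹' V ∈ 𝓝 (1 : H) :=
    fun V hV => hc.continuousAt.preimage_mem_nhds hV
  have hcpt : IsCompact ((Subtype.val : H → G) ⁻¹' K) := by
    rw [Subtype.isCompact_iff, Set.image_preimage_eq_of_subset]
    · exact hKc
    · intro y hy
      exact ⟨⟨y, Subgroup.subset_closure hy⟩, rfl⟩
  have hgen : Subgroup.closure ((Subtype.val : H → G) ⁻¹' K) = ⊤ :=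
    Subgroup.closure_closure_coe_preimage
  have hcov' : ∀ y : H, ∃ κ ∈ (Subtype.val : H → G) ⁻¹' K, ∃ l ∈ Γ.subgroupOf H, y = κ * l := by
    intro y
    obtain ⟨κ, hκ, l, hl, e⟩ := hcov y
    have hκH : κ ∈ H := Subgroup.subset_closure (Or.inl hκ)
    have hlH : l ∈ H := by
      have : κ * l ∈ H := e ▸ y.2
      exact (Subgroup.mul_mem_cancel_left _ hκH).mp this
    exact ⟨⟨κ, hκH⟩, Or.inl hκ, ⟨l, hlH⟩, hl, Subtype.ext e⟩
  have hdisc : ∃ U ∈ 𝓝 (1 : H), ∀ l ∈ Γ.subgroupOf H, l ∈ U → l = 1 := by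
    have h1 : ({1} : Set Γ) ∈ 𝓝 (1 : Γ) := (isOpen_discrete _).mem_nhds rfl
    obtain ⟨U, hU, hU'⟩ := (mem_nhds_subtype (Γ : Set G) (1 : Γ) _).mp h1
    refine ⟨_, hnh U hU, fun l hl hlU => Subtype.ext ?_⟩
    have : (⟨l, hl⟩ : Γ) ∈ ({1} : Set Γ) := hU' hlU
    exact congrArg (Subtype.val : Γ → G) (Set.mem_singleton_iff.mp this)
  have hbase : Base H ((Subtype.val : H → G) ⁻¹' K) (Γ.subgroupOf H) k :=
    { cpt := hcpt
      gen := hgen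
      cov := hcov'
      fg := fg_lattice _ hdisc _ hcpt hgen hcov'
      disc := hdisc
      nss := by
        obtain ⟨V, hV, hn⟩ := nss
        exact ⟨_, hnh V hV, fun y hy => Subtype.ext (hn y fun n => hy n)⟩
      nil := Subgroup.upperCentralSeries_eq_top_iff_nilpotencyClass_le.mpr
        ((Subgroup.nilpotencyClass_le H).trans hk) }
  have hV : ∀ᶠ v in 𝓝 (1 : G), ∀ y ∈ (Set.univ : Set (G ⧸ Γ)), ‖F (v • y) - F y‖ < ε := by
    apply isCompact_univ.eventually_forall_of_forall_eventually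
    intro y _
    have c1 : Continuous fun z : G × (G ⧸ Γ) => ‖F (z.1 • z.2) - F z.2‖ := by fun_prop
    exact c1.continuousAt.eventually_lt continuousAt_const (by simpa using hε)
  obtain ⟨p, hp, e, he, l, hl, hE⟩ := hbase.ram ⟨g, hg⟩ ⟨x₀, hx⟩ _ (hnh _ hV) P hP
  refine ⟨p, hp, ?_⟩
  have hE' : g ^ p.2 * x₀ = (e : G) * (g ^ p.1 * x₀) * (l : G) := by
    have := congrArg Subtype.val hE
    simpa using this
  have e2 : g ^ p.2 • (x₀ : G ⧸ Γ) = (e : G) • (g ^ p.1 • (x₀ : G ⧸ Γ)) := by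
    show ((g ^ p.2 * x₀ : G) : G ⧸ Γ) = (((e : G) * (g ^ p.1 * x₀) : G) : G ⧸ Γ)
    rw [hE']
    exact QuotientGroup.mk_mul_of_mem _ hl
  rw [e2]
  exact he _ (Set.mem_univ _)

end general

theorem basic_close {k : ℕ} {φ : ℕ+ → ℂ} (hφ : IsBasicNilseq k φ) (ε : ℝ) (hε : 0 < ε)
    (P : Set (ℤ × ℤ)) (hpos : ∀ n ∈ supp P, 0 < n) (hP : ∀ r : ℕ, Ram k (Fin r) P) :
    ∃ a b : ℕ+, (((a : ℕ) : ℤ), ((b : ℕ) : ℤ)) ∈ P ∧ ‖φ b - φ a‖ < ε := by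
  obtain ⟨E, _, _, _, G, _, _, _, _, _, _, Γ, hnil, hk, hd, hc, g, x, F, hF, hφ⟩ := hφ
  have : IsTopologicalGroup G := topologicalGroup_of_lieGroup 𝓘(ℝ, E) ∞
  have : ProperSpace E := FiniteDimensional.proper_real E
  have : LocallyCompactSpace G := ChartedSpace.locallyCompactSpace E G
  obtain ⟨p, hp, h⟩ := ram_quot Γ k hk (lie_nss (E := E)) g x F hF ε hε P hP
  have h1 : 0 < p.1 := hpos _ (Or.inl ⟨p, hp, rfl⟩)
  have h2 : 0 < p.2 := hpos _ (Or.inr ⟨p, hp, rfl⟩)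
  have e1 : ((p.1.toNat : ℕ) : ℤ) = p.1 := Int.toNat_of_nonneg h1.le
  have e2 : ((p.2.toNat : ℕ) : ℤ) = p.2 := Int.toNat_of_nonneg h2.le
  refine ⟨⟨p.1.toNat, by omega⟩, ⟨p.2.toNat, by omega⟩, ?_, ?_⟩
  · show (((p.1.toNat : ℕ) : ℤ), ((p.2.toNat : ℕ) : ℤ)) ∈ P
    rw [e1, e2]; exact hp
  · rw [hφ, hφ]
    show ‖F (g ^ p.2.toNat • x) - F (g ^ p.1.toNat • x)‖ < ε
    rw [← zpow_natCast, ← zpow_natCast, e1, e2]
    exact h

theorem not_interp (k : ℕ) (P : Set (ℤ × ℤ)) (hpos : ∀ n ∈ supp P, 0 < n) (hD : Disj P)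
    (hP : ∀ r : ℕ, Ram k (Fin r) P) :
    ¬ IsInterpolationSet k {n : ℕ+ | ((n : ℕ) : ℤ) ∈ supp P} := by
  classical
  intro h
  obtain ⟨ψ, ⟨φ, hφ, hlim⟩, hψ⟩ := h
    (fun n => if (((n : ℕ+) : ℕ) : ℤ) ∈ Prod.snd '' P then 1 else 0)
    ⟨1, fun n => by split_ifs <;> simp⟩
  obtain ⟨m, hm⟩ := (Metric.tendstoUniformly_iff.mp hlim (1 / 4) (by norm_num)).exists
  obtain ⟨a, b, hab, hclose⟩ := basic_close (hφ m) (1 / 2) (by norm_num) P hpos hP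
  have ha := hψ ⟨a, Or.inl ⟨_, hab, rfl⟩⟩
  have hb := hψ ⟨b, Or.inr ⟨_, hab, rfl⟩⟩
  simp only at ha hb
  rw [if_neg (by
    rintro ⟨p', hp', e⟩
    exact hD _ hab p' hp' e.symm)] at ha
  rw [if_pos ⟨_, hab, rfl⟩] at hb
  have h1 := hm a
  have h2 := hm b
  rw [ha, dist_eq_norm] at h1
  rw [hb, dist_eq_norm] at h2
  have e : (1 : ℂ) = (1 - φ m b) + (φ m b - φ m a) - (0 - φ m a) := by ring
  have h3 : ‖(1 : ℂ)‖ ≤ ‖1 - φ m b‖ + ‖φ m b - φ m a‖ + ‖0 - φ m a‖ := by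
    nth_rewrite 1 [e]
    exact (norm_sub_le _ _).trans (add_le_add_left (norm_add_le _ _) _)
  rw [norm_one] at h3
  linarith

end Pool.Agent.H5Z.Nil
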