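import Mathlib

/-! Approximate uniqueness of the last vertex of a cube in a filtered homogeneous space. -/

set_option autoImplicit false

namespace Pool.Agent.H5Z.Nil

open Topology Filter
open scoped commutatorElement Pointwise

/-- A filtration with a lattice which is compatible with each of its terms. -/
structure Good {G : Type} [Group G] [TopologicalSpace G] (N : ℕ → Subgroup G) (Γ : Subgroup G) :
    Prop where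
  le : ∀ i, N (i + 1) ≤ N i
  comm : ∀ i j, ∀ a ∈ N i, ∀ b ∈ N j, ⁅a, b⁆ ∈ N (i + j + 1)
  lat : Γ ≤ N 0
  disc : ∀ i, ∃ U ∈ 𝓝 (1 : G), ∀ n ∈ N i, ∀ l ∈ Γ, n * l ∈ U → n * l ∈ N i
  cpt : ∀ i, ∃ C : Set G, IsCompact C ∧ ∀ n ∈ N i, ∃ κ ∈ C, κ ∈ N i ∧ ∃ l ∈ Γ, n = κ * l

section basic

variable {G : Type} [Group G] [TopologicalSpace G] {N : ℕ → Subgroup G} {Γ : Subgroup G}

lemma Good.anti (h : Good N Γ) : Antitone N := antitone_nat_of_succ_le h.le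

lemma Good.le0 (h : Good N Γ) {i : ℕ} {a : G} (ha : a ∈ N i) : a ∈ N 0 :=
  h.anti (Nat.zero_le i) ha

lemma Good.comm0 (h : Good N Γ) {i : ℕ} {a b : G} (ha : a ∈ N 0) (hb : b ∈ N i) :
    ⁅a, b⁆ ∈ N (i + 1) := by
  have := h.comm 0 i a ha b hb
  rwa [Nat.zero_add] at this

lemma Good.conj (h : Good N Γ) {i : ℕ} {a b : G} (ha : a ∈ N 0) (hb : b ∈ N i) :
    a * b * a⁻¹ ∈ N i := by
  have e : a * b * a⁻¹ = ⁅a, b⁆ * b := by group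
  rw [e]
  exact (N i).mul_mem (h.le i (h.comm0 ha hb)) hb

lemma Good.conj' (h : Good N Γ) {i : ℕ} {a b : G} (ha : a ∈ N 0) (hb : b ∈ N i) :
    a⁻¹ * b * a ∈ N i := by
  have := h.conj ((N 0).inv_mem ha) hb
  rwa [inv_inv] at this

/-- The filtration of the group of pairs. -/
def box (h : Good N Γ) (i : ℕ) : Subgroup (G × G) where
  carrier := {p | p.2 ∈ N i ∧ p.1 * p.2⁻¹ ∈ N (i + 1)}
  one_mem' := ⟨(N i).one_mem, by simp⟩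
  mul_mem' := by
    rintro ⟨a, b⟩ ⟨a', b'⟩ ⟨h1, h2⟩ ⟨h3, h4⟩
    refine ⟨(N i).mul_mem h1 h3, ?_⟩
    have ha : a ∈ N 0 := by
      have e : a = (a * b⁻¹) * b := by group
      rw [e]
      exact (N 0).mul_mem (h.le0 h2) (h.le0 h1)
    have e : (a * a') * (b * b')⁻¹ = (a * (a' * b'⁻¹) * a⁻¹) * (a * b⁻¹) := by group
    show (a * a') * (b * b')⁻¹ ∈ N (i + 1)
    rw [e]
    exact (N (i + 1)).mul_mem (h.conj ha h4) h2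
  inv_mem' := by
    rintro ⟨a, b⟩ ⟨h1, h2⟩
    refine ⟨(N i).inv_mem h1, ?_⟩
    have e : a⁻¹ * b⁻¹⁻¹ = b⁻¹ * (a * b⁻¹)⁻¹ * b := by group
    show a⁻¹ * b⁻¹⁻¹ ∈ N (i + 1)
    rw [e]
    exact h.conj' (h.le0 h1) ((N (i + 1)).inv_mem h2)

lemma mem_box (h : Good N Γ) {i : ℕ} {p : G × G} :
    p ∈ box h i ↔ p.2 ∈ N i ∧ p.1 * p.2⁻¹ ∈ N (i + 1) := Iff.rfl

lemma box_fst (h : Good N Γ) {i : ℕ} {p : G × G} (hp : p ∈ box h i) : p.1 ∈ N i := by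
  have e : p.1 = (p.1 * p.2⁻¹) * p.2 := by group
  rw [e]
  exact (N i).mul_mem (h.le i hp.2) hp.1

end basic

section topo

variable {G : Type} [Group G] [TopologicalSpace G] [IsTopologicalGroup G]

lemma conj_small (C : Set G) (hC : IsCompact C) (V : Set G) (hV : V ∈ 𝓝 (1 : G)) :
    ∃ U ∈ 𝓝 (1 : G), ∀ κ ∈ C, ∀ e ∈ U, κ * e * κ⁻¹ ∈ V ∧ κ⁻¹ * e * κ ∈ V := by
  have : ∀ᶠ e in 𝓝 (1 : G), ∀ κ ∈ C, κ * e * κ⁻¹ ∈ V ∧ κ⁻¹ * e * κ ∈ V := by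
    apply hC.eventually_forall_of_forall_eventually
    intro κ _
    have c1 : Continuous fun z : G × G => z.2 * z.1 * z.2⁻¹ := by fun_prop
    have c2 : Continuous fun z : G × G => z.2⁻¹ * z.1 * z.2 := by fun_prop
    have t1 : ∀ᶠ z : G × G in 𝓝 (1, κ), z.2 * z.1 * z.2⁻¹ ∈ V :=
      c1.continuousAt.eventually_mem (by simpa using hV)
    have t2 : ∀ᶠ z : G × G in 𝓝 (1, κ), z.2⁻¹ * z.1 * z.2 ∈ V :=
      c2.continuousAt.eventually_mem (by simpa using hV)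
    exact t1.and t2
  exact ⟨_, this, fun κ hκ e he => he κ hκ⟩

lemma comm_small (C : Set G) (hC : IsCompact C) (V : Set G) (hV : V ∈ 𝓝 (1 : G)) :
    ∃ U ∈ 𝓝 (1 : G), ∀ κ ∈ C, ∀ e ∈ U, ⁅e, κ⁆ ∈ V := by
  have : ∀ᶠ e in 𝓝 (1 : G), ∀ κ ∈ C, ⁅e, κ⁆ ∈ V := by
    apply hC.eventually_forall_of_forall_eventually
    intro κ _
    have c1 : Continuous fun z : G × G => z.1 * z.2 * z.1⁻¹ * z.2⁻¹ := by fun_prop
    exact c1.continuousAt.eventually_mem (by simpa using hV)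
  exact ⟨_, this, fun κ hκ e he => he κ hκ⟩

lemma split_small (V : Set G) (hV : V ∈ 𝓝 (1 : G)) :
    ∃ U ∈ 𝓝 (1 : G), ∀ a ∈ U, ∀ b ∈ U, a * b ∈ V ∧ a⁻¹ * b ∈ V ∧ a * b⁻¹ ∈ V := by
  have c1 : Continuous fun z : G × G => z.1 * z.2 := by fun_prop
  have c2 : Continuous fun z : G × G => z.1⁻¹ * z.2 := by fun_prop
  have c3 : Continuous fun z : G × G => z.1 * z.2⁻¹ := by fun_prop
  have t1 : ∀ᶠ z : G × G in 𝓝 (1, 1), z.1 * z.2 ∈ V :=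
    c1.continuousAt.eventually_mem (by simpa using hV)
  have t2 : ∀ᶠ z : G × G in 𝓝 (1, 1), z.1⁻¹ * z.2 ∈ V :=
    c2.continuousAt.eventually_mem (by simpa using hV)
  have t3 : ∀ᶠ z : G × G in 𝓝 (1, 1), z.1 * z.2⁻¹ ∈ V :=
    c3.continuousAt.eventually_mem (by simpa using hV)
  have t := t1.and (t2.and t3)
  rw [nhds_prod_eq] at t
  obtain ⟨U₁, h₁, U₂, h₂, h⟩ := Filter.mem_prod_iff.mp t
  exact ⟨U₁ ∩ U₂, inter_mem h₁ h₂, fun a ha b hb => h (Set.mk_mem_prod ha.1 hb.2)⟩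

variable {N : ℕ → Subgroup G} {Γ : Subgroup G}

lemma good_box (h : Good N Γ) : Good (box h) ((Γ.prod Γ) ⊓ box h 0) where
  le i := fun p hp => ⟨h.le i hp.1, h.le (i + 1) hp.2⟩
  comm i j := by
    rintro ⟨a, b⟩ hp ⟨n, m⟩ hq
    have hn : n ∈ N j := box_fst h hq
    obtain ⟨h1, h2⟩ := hp
    obtain ⟨h3, h4⟩ := hq
    simp only at h1 h2 h3 h4
    refine ⟨h.comm i j b h1 m h3, ?_⟩
    show ⁅a, n⁆ * ⁅b, m⁆⁻¹ ∈ N (i + j + 1 + 1)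
    have e : ⁅a, n⁆ * ⁅b, m⁆⁻¹ = ⁅a * b⁻¹, ⁅b, n⁆⁆ * ⁅b, n * m⁻¹⁆ * ⁅n * m⁻¹, ⁅b, m⁆⁆ *
        (⁅b, m⁆ * ⁅a * b⁻¹, n⁆ * ⁅b, m⁆⁻¹) := by group
    rw [e]
    refine Subgroup.mul_mem _ (Subgroup.mul_mem _ (Subgroup.mul_mem _ ?_ ?_) ?_) ?_
    · exact h.comm0 (h.le0 h2) (h.comm i j b h1 n hn)
    · exact h.comm i (j + 1) b h1 _ h4
    · exact h.comm0 (h.le0 h4) (h.comm i j b h1 m h3)
    · apply h.conj (h.le0 (h.comm i j b h1 m h3))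
      have := h.comm (i + 1) j _ h2 n hn
      have e2 : i + 1 + j + 1 = i + j + 1 + 1 := by omega
      rwa [e2] at this
  lat := inf_le_right
  disc i := by
    obtain ⟨U₁, hU₁, h₁⟩ := h.disc i
    obtain ⟨U₂, hU₂, h₂⟩ := h.disc (i + 1)
    obtain ⟨U₃, hU₃, h₃⟩ := split_small U₂ hU₂
    refine ⟨(U₁ ∩ U₃) ×ˢ (U₁ ∩ U₃), prod_mem_nhds (inter_mem hU₁ hU₃) (inter_mem hU₁ hU₃), ?_⟩
    rintro ⟨n, m⟩ hp ⟨l, l'⟩ ⟨⟨hl, hl'⟩, -⟩ ⟨⟨a1, a2⟩, a3, a4⟩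
    have hn : n ∈ N i := box_fst h hp
    obtain ⟨hm, hnm⟩ := hp
    simp only [Prod.fst_mul, Prod.snd_mul] at a1 a2 a3 a4 hm hnm hl hl'
    have b1 : n * l ∈ N i := h₁ n hn l hl a1
    have b2 : m * l' ∈ N i := h₁ m hm l' hl' a3
    refine ⟨b2, ?_⟩
    show (n * l) * (m * l')⁻¹ ∈ N (i + 1)
    have b3 : l ∈ N i := by simpa using (N i).mul_mem ((N i).inv_mem hn) b1
    have b4 : l' ∈ N i := by simpa using (N i).mul_mem ((N i).inv_mem hm) b2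
    have e : (n * l) * (m * l')⁻¹ = (n * m⁻¹ * ⁅m, l * l'⁻¹⁆) * (l * l'⁻¹) := by group
    have b5 := (h₃ _ a2 _ a4).2.2
    rw [e] at b5 ⊢
    exact h₂ _ ((N (i + 1)).mul_mem hnm (h.comm0 (h.le0 hm)
      ((N i).mul_mem b3 ((N i).inv_mem b4)))) _ (Γ.mul_mem hl (Γ.inv_mem hl')) b5
  cpt i := by
    obtain ⟨C₁, hC₁, h₁⟩ := h.cpt i
    obtain ⟨C₂, hC₂, h₂⟩ := h.cpt (i + 1)
    refine ⟨(C₁ * C₂) ×ˢ C₁, (hC₁.mul hC₂).prod hC₁, ?_⟩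
    rintro ⟨n, m⟩ ⟨hm, hnm⟩
    simp only at hm hnm
    obtain ⟨κ, hκ, hκ', γ, hγ, e1⟩ := h₁ m hm
    have hc : κ⁻¹ * (n * m⁻¹) * κ ∈ N (i + 1) := h.conj' (h.le0 hκ') hnm
    obtain ⟨κ₂, hκ₂, hκ₂', γ₂, hγ₂, e2⟩ := h₂ _ hc
    refine ⟨(κ * κ₂, κ), ⟨Set.mul_mem_mul hκ hκ₂, hκ⟩, ⟨hκ', h.conj (h.le0 hκ') hκ₂'⟩,
      (γ₂ * γ, γ), ⟨⟨Γ.mul_mem hγ₂ hγ, hγ⟩, h.lat hγ, ?_⟩, ?_⟩
    · show γ₂ * γ * γ⁻¹ ∈ N (0 + 1)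
      have e3 : γ₂ * γ * γ⁻¹ = κ₂⁻¹ * (κ⁻¹ * (n * m⁻¹) * κ) := by rw [e2]; group
      rw [e3]
      exact h.anti (by omega : 0 + 1 ≤ i + 1)
        ((N (i + 1)).mul_mem ((N (i + 1)).inv_mem hκ₂') hc)
    · refine Prod.ext ?_ e1
      show n = κ * κ₂ * (γ₂ * γ)
      have e3 : κ * κ₂ * (γ₂ * γ) = κ * (κ₂ * γ₂) * γ := by group
      rw [e3, ← e2, e1]
      group

end topo

/-- The cosets of `x` and `y` differ by an element of `U`. -/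
def Nr {G : Type} [Group G] (Γ : Subgroup G) (U : Set G) (x y : G) : Prop :=
  ∃ e ∈ U, ∃ l ∈ Γ, y = e * x * l

/-- The cubes based at `x` and `y` are close. -/
def AllG {G : Type} [Group G] (Γ : Subgroup G) (U : Set G) : List G → G → G → Prop
  | [], x, y => Nr Γ U x y
  | a :: as, x, y => AllG Γ U as x y ∧ AllG Γ U as (a * x) (a * y)

/-- The cubes based at `x` and `y` are close away from the base vertex. -/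
def PunctG {G : Type} [Group G] (Γ : Subgroup G) (U : Set G) : List G → G → G → Prop
  | [], _, _ => True
  | a :: as, x, y => PunctG Γ U as x y ∧ AllG Γ U as (a * x) (a * y)

lemma AllG.split {G : Type} [Group G] {Γ : Subgroup G} {U : Set G} {as : List G} {x y : G}
    (h : AllG Γ U as x y) : Nr Γ U x y ∧ PunctG Γ U as x y := by
  induction as with
  | nil => exact ⟨h, trivial⟩
  | cons a as ih => exact ⟨(ih h.1).1, (ih h.1).2, h.2⟩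

section transfer

variable {G : Type} [Group G] [TopologicalSpace G] {N : ℕ → Subgroup G} {Γ : Subgroup G}

lemma conj_mem_box (h : Good N Γ) {u v a b : G} (hu : u ∈ N 0) (hv : v ∈ N 0) (hb : b ∈ N 0)
    (hab : a * b⁻¹ ∈ N 1) : (u⁻¹ * a * u, v⁻¹ * b * v) ∈ box h 0 := by
  refine ⟨h.conj' hv hb, ?_⟩
  show u⁻¹ * a * u * (v⁻¹ * b * v)⁻¹ ∈ N (0 + 1)
  have e : u⁻¹ * a * u * (v⁻¹ * b * v)⁻¹
      = (u⁻¹ * (a * b⁻¹) * u) * ⁅u⁻¹, b⁆ * ⁅v⁻¹, b⁆⁻¹ := by group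
  rw [e]
  exact Subgroup.mul_mem _ (Subgroup.mul_mem _ (h.conj' hu hab) (h.comm0 ((N 0).inv_mem hu) hb))
    (Subgroup.inv_mem _ (h.comm0 ((N 0).inv_mem hv) hb))

/-- The pair `p` represents the pair of cosets of `u⁻¹ x₁`, `v⁻¹ x₂`. -/
def Rep (Γ : Subgroup G) (u v x₁ x₂ : G) (p : G × G) : Prop :=
  ∃ g₁ ∈ Γ, ∃ g₂ ∈ Γ, p = (u⁻¹ * x₁ * g₁, v⁻¹ * x₂ * g₂)

omit [TopologicalSpace G] in
lemma Rep.mul {u v x₁ x₂ : G} {p : G × G} (h : Rep Γ u v x₁ x₂ p) (a : G) :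
    Rep Γ u v (a * x₁) (a * x₂) ((u⁻¹ * a * u, v⁻¹ * a * v) * p) := by
  obtain ⟨g₁, h₁, g₂, h₂, rfl⟩ := h
  refine ⟨g₁, h₁, g₂, h₂, Prod.ext ?_ ?_⟩
  · show u⁻¹ * a * u * (u⁻¹ * x₁ * g₁) = u⁻¹ * (a * x₁) * g₁
    group
  · show v⁻¹ * a * v * (v⁻¹ * x₂ * g₂) = v⁻¹ * (a * x₂) * g₂
    group

variable (h : Good N Γ) {U U₁ : Set G} {U' : Set (G × G)} {u v : G}
  (hu : u ∈ N 0) (hv : v ∈ N 0)
  (hU : ∀ e ∈ U, u⁻¹ * e * u ∈ U₁ ∧ v⁻¹ * e * v ∈ U₁)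
  (hU' : U₁ ×ˢ U₁ ⊆ U')
  (hD : ∀ a ∈ U₁, ∀ b ∈ U₁, ∀ n ∈ N 1, ∀ l ∈ Γ, a⁻¹ * b = n * l → n * l ∈ N 1)

include hU hU' hD in
lemma nr_box {x₁ x₂ y₁ y₂ : G} {p q : G × G} (hp : p ∈ box h 0) (hq : q ∈ box h 0)
    (rp : Rep Γ u v x₁ x₂ p) (rq : Rep Γ u v y₁ y₂ q) (n₁ : Nr Γ U x₁ y₁) (n₂ : Nr Γ U x₂ y₂) :
    Nr ((Γ.prod Γ) ⊓ box h 0) U' p q := by
  obtain ⟨g₁, hg₁, g₂, hg₂, ep⟩ := rp
  obtain ⟨k₁, hk₁, k₂, hk₂, eq⟩ := rq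
  obtain ⟨e₁, he₁, l₁, hl₁, rfl⟩ := n₁
  obtain ⟨e₂, he₂, l₂, hl₂, rfl⟩ := n₂
  have hm₁ : g₁⁻¹ * l₁ * k₁ ∈ Γ := Γ.mul_mem (Γ.mul_mem (Γ.inv_mem hg₁) hl₁) hk₁
  have hm₂ : g₂⁻¹ * l₂ * k₂ ∈ Γ := Γ.mul_mem (Γ.mul_mem (Γ.inv_mem hg₂) hl₂) hk₂
  have q1 : q.1 = (u⁻¹ * e₁ * u) * p.1 * (g₁⁻¹ * l₁ * k₁) := by rw [ep, eq]; group
  have q2 : q.2 = (v⁻¹ * e₂ * v) * p.2 * (g₂⁻¹ * l₂ * k₂) := by rw [ep, eq]; group
  have s1 := (hU e₁ he₁).1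
  have s2 := (hU e₂ he₂).2
  generalize u⁻¹ * e₁ * u = d₁ at q1 s1
  generalize v⁻¹ * e₂ * v = d₂ at q2 s2
  generalize g₁⁻¹ * l₁ * k₁ = m₁ at q1 hm₁
  generalize g₂⁻¹ * l₂ * k₂ = m₂ at q2 hm₂
  refine ⟨(d₁, d₂), hU' (Set.mk_mem_prod s1 s2), (m₁, m₂), ⟨⟨hm₁, hm₂⟩, h.lat hm₂, ?_⟩,
    Prod.ext q1 q2⟩
  show m₁ * m₂⁻¹ ∈ N (0 + 1)
  have hd₁ : d₁ ∈ N 0 := by
    have e : d₁ = q.1 * m₁⁻¹ * p.1⁻¹ := by rw [q1]; group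
    rw [e]
    exact (N 0).mul_mem ((N 0).mul_mem (box_fst h hq) ((N 0).inv_mem (h.lat hm₁)))
      ((N 0).inv_mem (box_fst h hp))
  have hμ : m₁ * m₂⁻¹ ∈ Γ := Γ.mul_mem hm₁ (Γ.inv_mem hm₂)
  have hn : (d₁⁻¹ * (q.1 * q.2⁻¹)⁻¹ * d₁) * (p.1 * p.2⁻¹ * ⁅p.2, m₁ * m₂⁻¹⁆) ∈ N 1 :=
    (N 1).mul_mem (h.conj' hd₁ ((N 1).inv_mem hq.2))
      ((N 1).mul_mem hp.2 (h.comm0 hp.1 (h.lat hμ)))
  have e : d₁⁻¹ * d₂ = (d₁⁻¹ * (q.1 * q.2⁻¹)⁻¹ * d₁) * (p.1 * p.2⁻¹ * ⁅p.2, m₁ * m₂⁻¹⁆)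
      * (m₁ * m₂⁻¹) := by
    rw [q1, q2]; group
  have := hD d₁ s1 d₂ s2 _ hn _ hμ e
  exact (Subgroup.mul_mem_cancel_left _ hn).mp this

include hu hv hU hU' hD in
lemma all_box (as : List G) (has : ∀ a ∈ as, a ∈ N 0) :
    ∀ {x₁ x₂ y₁ y₂ : G} {p q : G × G}, p ∈ box h 0 → q ∈ box h 0 →
      Rep Γ u v x₁ x₂ p → Rep Γ u v y₁ y₂ q → AllG Γ U as x₁ y₁ → AllG Γ U as x₂ y₂ →
      AllG ((Γ.prod Γ) ⊓ box h 0) U' (as.map fun a => (u⁻¹ * a * u, v⁻¹ * a * v)) p q := by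
  induction as with
  | nil =>
    intro x₁ x₂ y₁ y₂ p q hp hq rp rq n₁ n₂
    exact nr_box h hU hU' hD hp hq rp rq n₁ n₂
  | cons a as ih =>
    intro x₁ x₂ y₁ y₂ p q hp hq rp rq n₁ n₂
    have ih' := @ih (fun b hb => has b (List.mem_cons_of_mem _ hb))
    have ha : (u⁻¹ * a * u, v⁻¹ * a * v) ∈ box h 0 :=
      conj_mem_box h hu hv (has a List.mem_cons_self) (by simp)
    exact ⟨ih' hp hq rp rq n₁.1 n₂.1, ih' (Subgroup.mul_mem _ ha hp) (Subgroup.mul_mem _ ha hq)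
      (rp.mul a) (rq.mul a) n₁.2 n₂.2⟩

include hu hv hU hU' hD in
lemma punct_box (as : List G) (has : ∀ a ∈ as, a ∈ N 0) :
    ∀ {x₁ x₂ y₁ y₂ : G} {p q : G × G}, p ∈ box h 0 → q ∈ box h 0 →
      Rep Γ u v x₁ x₂ p → Rep Γ u v y₁ y₂ q → PunctG Γ U as x₁ y₁ → PunctG Γ U as x₂ y₂ →
      PunctG ((Γ.prod Γ) ⊓ box h 0) U' (as.map fun a => (u⁻¹ * a * u, v⁻¹ * a * v)) p q := by
  induction as with
  | nil =>
    intro x₁ x₂ y₁ y₂ p q _ _ _ _ _ _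
    trivial
  | cons a as ih =>
    intro x₁ x₂ y₁ y₂ p q hp hq rp rq n₁ n₂
    have ih' := @ih (fun b hb => has b (List.mem_cons_of_mem _ hb))
    have ha : (u⁻¹ * a * u, v⁻¹ * a * v) ∈ box h 0 :=
      conj_mem_box h hu hv (has a List.mem_cons_self) (by simp)
    exact ⟨ih' hp hq rp rq n₁.1 n₂.1, all_box h hu hv hU hU' hD as
      (fun b hb => has b (List.mem_cons_of_mem _ hb))
      (Subgroup.mul_mem _ ha hp) (Subgroup.mul_mem _ ha hq) (rp.mul a) (rq.mul a) n₁.2 n₂.2⟩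

end transfer

/-- Two `k`-dimensional cubes which are close away from the base vertex have base vertices which
are close modulo the `k`-th term of the filtration. -/
theorem last_vertex (k : ℕ) : ∀ (G : Type) [Group G] [TopologicalSpace G] [IsTopologicalGroup G]
    (N : ℕ → Subgroup G) (Γ : Subgroup G), Good N Γ → ∀ V ∈ 𝓝 (1 : G), ∃ U ∈ 𝓝 (1 : G),
      ∀ as : List G, as.length = k → (∀ a ∈ as, a ∈ N 0) → ∀ x ∈ N 0, ∀ y ∈ N 0,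
        PunctG Γ U as x y → ∃ e ∈ V, ∃ c ∈ N k, ∃ l ∈ Γ, y = e * c * x * l := by
  induction k with
  | zero =>
    intro G _ _ _ N Γ _ V hV
    refine ⟨Set.univ, univ_mem, fun as _ _ x hx y hy _ => ⟨1, mem_of_mem_nhds hV, y * x⁻¹,
      (N 0).mul_mem hy ((N 0).inv_mem hx), 1, Γ.one_mem, by group⟩⟩
  | succ k ih =>
    intro G _ _ _ N Γ h V hV
    obtain ⟨C, hC, hCΓ⟩ := h.cpt 0
    obtain ⟨V₁, hV₁, h₁⟩ := conj_small C hC V hV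
    obtain ⟨V₂, hV₂, h₂⟩ := split_small V₁ hV₁
    obtain ⟨V₃, hV₃, h₃⟩ := split_small V₂ hV₂
    obtain ⟨U', hU', hih⟩ := ih (G × G) (box h) _ (good_box h) ((V₂ ∩ V₃) ×ˢ (V₂ ∩ V₃))
      (prod_mem_nhds (inter_mem hV₂ hV₃) (inter_mem hV₂ hV₃))
    have hU'' : U' ∈ 𝓝 (1 : G) ×ˢ 𝓝 (1 : G) := by rw [← nhds_prod_eq]; exact hU'
    obtain ⟨W₁, hW₁, W₂, hW₂, hW⟩ := Filter.mem_prod_iff.mp hU''
    obtain ⟨D, hD, hDisc⟩ := h.disc 1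
    obtain ⟨D', hD', hD''⟩ := split_small D hD
    obtain ⟨U, hU, hUU⟩ := conj_small C hC (W₁ ∩ W₂ ∩ D' ∩ V₃)
      (inter_mem (inter_mem (inter_mem hW₁ hW₂) hD') hV₃)
    refine ⟨U, hU, ?_⟩
    intro as hlen has x hx y hy hP
    obtain ⟨a, as, rfl⟩ := List.exists_cons_of_length_eq_add_one hlen
    have ha : a ∈ N 0 := has a List.mem_cons_self
    have has' : ∀ b ∈ as, b ∈ N 0 := fun b hb => has b (List.mem_cons_of_mem _ hb)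
    obtain ⟨u, huC, hu, gx, hgx, ex⟩ := hCΓ x hx
    obtain ⟨v, hvC, hv, gv, hgv, ev⟩ := hCΓ (a * x) ((N 0).mul_mem ha hx)
    have hκ : y * x⁻¹ ∈ N 0 := (N 0).mul_mem hy ((N 0).inv_mem hx)
    have hq : (u⁻¹ * (y * x⁻¹) * u, v⁻¹ * (a * (y * x⁻¹) * a⁻¹) * v) ∈ box h 0 := by
      apply conj_mem_box h hu hv (h.conj ha hκ)
      have e : y * x⁻¹ * (a * (y * x⁻¹) * a⁻¹)⁻¹ = ⁅a, y * x⁻¹⁆⁻¹ := by group
      rw [e]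
      exact (N 1).inv_mem (h.comm0 ha hκ)
    have eu : u = x * gx⁻¹ := by rw [ex]; group
    have ev' : v = a * x * gv⁻¹ := by rw [ev]; group
    have rp : Rep Γ u v x (a * x) 1 := by
      refine ⟨gx⁻¹, Γ.inv_mem hgx, gv⁻¹, Γ.inv_mem hgv, Prod.ext ?_ ?_⟩
      · show 1 = u⁻¹ * x * gx⁻¹
        rw [eu]; group
      · show 1 = v⁻¹ * (a * x) * gv⁻¹
        rw [ev']; group
    have rq : Rep Γ u v y (a * y)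
        (u⁻¹ * (y * x⁻¹) * u, v⁻¹ * (a * (y * x⁻¹) * a⁻¹) * v) := by
      refine ⟨gx⁻¹, Γ.inv_mem hgx, gv⁻¹, Γ.inv_mem hgv, Prod.ext ?_ ?_⟩
      · show u⁻¹ * (y * x⁻¹) * u = u⁻¹ * y * gx⁻¹
        rw [eu]; group
      · show v⁻¹ * (a * (y * x⁻¹) * a⁻¹) * v = v⁻¹ * (a * y) * gv⁻¹
        rw [ev']; group
    obtain ⟨hnr, hP₂⟩ := hP.2.split
    have hbox := punct_box h (U := U) (U₁ := W₁ ∩ W₂ ∩ D' ∩ V₃) (U' := U') hu hv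
      (fun e he => ⟨(hUU u huC e he).2, (hUU v hvC e he).2⟩)
      (fun z hz => hW (Set.mk_mem_prod hz.1.1.1.1 hz.2.1.1.2))
      (fun a ha b hb n hn l hl e => hDisc n hn l hl (e ▸ (hD'' a ha.1.2 b hb.1.2).2.1))
      as has' (Subgroup.one_mem _) hq rp rq hP.1 hP₂
    obtain ⟨⟨e₁, e₂⟩, ⟨he₁, he₂⟩, ⟨c₁, c₂⟩, ⟨hc₂, hc⟩, ⟨l₁, l₂⟩, ⟨⟨hl₁, hl₂⟩, -⟩, hqe⟩ :=
      hih _ (by simpa using hlen) (by
        intro b hb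
        obtain ⟨b', hb', rfl⟩ := List.mem_map.mp hb
        exact conj_mem_box h hu hv (has' b' hb') (by simp)) 1 (Subgroup.one_mem _) _ hq hbox
    simp only at he₁ he₂ hc₂ hc hl₁ hl₂
    have q1 : u⁻¹ * (y * x⁻¹) * u = e₁ * c₁ * 1 * l₁ := congrArg Prod.fst hqe
    have q2 : v⁻¹ * (a * (y * x⁻¹) * a⁻¹) * v = e₂ * c₂ * 1 * l₂ := congrArg Prod.snd hqe
    obtain ⟨e, he, l, hl, eay⟩ := hnr
    have hs : v⁻¹ * e * v ∈ V₃ := (hUU v hvC e he).2.2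
    have hδ : e₂⁻¹ * (v⁻¹ * e * v) ∈ V₂ := (h₃ e₂ he₂.2 _ hs).2.1
    have hμ : gv * l * gv⁻¹ * l₂⁻¹ ∈ Γ :=
      Γ.mul_mem (Γ.mul_mem (Γ.mul_mem hgv hl) (Γ.inv_mem hgv)) (Γ.inv_mem hl₂)
    have ec : c₂ = (e₂⁻¹ * (v⁻¹ * e * v)) * (gv * l * gv⁻¹ * l₂⁻¹) := by
      have e1 : c₂ = e₂⁻¹ * (e₂ * c₂ * 1 * l₂) * l₂⁻¹ := by group
      have e2 : a * (y * x⁻¹) * a⁻¹ = (a * y) * (a * x)⁻¹ := by group
      rw [e1, ← q2, e2, eay, ev]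
      group
    generalize e₂⁻¹ * (v⁻¹ * e * v) = δ at hδ ec
    generalize gv * l * gv⁻¹ * l₂⁻¹ = μ at hμ ec
    have hδ0 : δ ∈ N 0 := by
      have e1 : δ = c₂ * μ⁻¹ := by rw [ec]; group
      rw [e1]
      exact (N 0).mul_mem (h.le0 hc₂) ((N 0).inv_mem (h.lat hμ))
    refine ⟨u * (e₁ * δ) * u⁻¹, (h₁ u huC _ (h₂ e₁ he₁.1 δ hδ).1).1,
      u * (δ⁻¹ * (c₁ * c₂⁻¹) * δ) * u⁻¹, h.conj hu (h.conj' hδ0 hc),
      gx⁻¹ * (μ * l₁) * gx, Γ.mul_mem (Γ.mul_mem (Γ.inv_mem hgx) (Γ.mul_mem hμ hl₁)) hgx, ?_⟩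
    have e1 : y = u * (u⁻¹ * (y * x⁻¹) * u) * u⁻¹ * x := by group
    rw [e1, q1, ec, ex]
    group

end Pool.Agent.H5Z.Nil
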